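import Mathlib
import Pool.Agent.Lib.MP_356f68_co.Win.Close

/-! Latin hypercubes as multipartite hypergraphs: matchings, weights and counting. -/

set_option autoImplicit false
set_option linter.unusedSectionVars false

namespace Pool.Agent.Lib.MP_356f68_co.Hyp

open Finset Function

variable {κ α : Type} [Fintype κ] [DecidableEq κ] [Fintype α] [DecidableEq α]

/-- the vertex set of a tuple -/
def cl (g : κ → α) : Finset (κ × α) := univ.image (fun j => (j, g j))

/-- every line contains exactly one cell -/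
def LK (E : (κ → α) → Prop) : Prop := ∀ k g, ∃! t, E (update g k t)

/-- vertex sets with a perfect matching -/
def PK (E : (κ → α) → Prop) (U : Finset (κ × α)) : Prop :=
  ∃ M : Finset (κ → α), (∀ g ∈ M, E g) ∧ (M : Set (κ → α)).PairwiseDisjoint cl ∧
    M.biUnion cl = U

/-- the number of vertices in a class -/
def sz (U : Finset (κ × α)) (j : κ) : ℕ := (U.filter (fun b => b.1 = j)).card

lemma mem_cl {g : κ → α} {b : κ × α} : b ∈ cl g ↔ g b.1 = b.2 := by
  unfold cl
  simp only [mem_image, mem_univ, true_and]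
  constructor
  · rintro ⟨j, rfl⟩; rfl
  · intro h; exact ⟨b.1, Prod.ext rfl h⟩

lemma card_cl (g : κ → α) : (cl g).card = Fintype.card κ := by
  unfold cl
  rw [card_image_of_injective _ (fun a b h => (Prod.ext_iff.1 h).1), card_univ]

lemma disjoint_cl {g g' : κ → α} : Disjoint (cl g) (cl g') ↔ ∀ j, g j ≠ g' j := by
  rw [disjoint_left]
  constructor
  · intro h j hj
    exact h (a := (j, g j)) (mem_cl.2 rfl) (mem_cl.2 hj.symm)
  · intro h b hb hb'
    exact h b.1 ((mem_cl.1 hb).trans (mem_cl.1 hb').symm)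

lemma sz_cl (g : κ → α) (j : κ) : sz (cl g) j = 1 := by
  rw [sz, card_eq_one]
  refine ⟨(j, g j), ?_⟩
  ext b
  simp only [mem_filter, mem_cl, mem_singleton]
  constructor
  · rintro ⟨h1, rfl⟩; exact Prod.ext rfl h1.symm
  · rintro rfl; exact ⟨rfl, rfl⟩

lemma sz_union {U U' : Finset (κ × α)} (hd : Disjoint U U') (j : κ) :
    sz (U ∪ U') j = sz U j + sz U' j := by
  rw [sz, filter_union, card_union_of_disjoint (disjoint_filter_filter hd), sz, sz]

lemma sz_eq (U : Finset (κ × α)) (j : κ) : sz U j = (univ.filter (fun t => (j, t) ∈ U)).card := by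
  refine card_nbij' Prod.snd (fun t => (j, t)) (fun b hb => ?_) (fun t ht => ?_)
    (fun b hb => ?_) (fun _ _ => rfl)
  · obtain ⟨h1, rfl⟩ := mem_filter.1 hb
    simpa using h1
  · simpa using ht
  · obtain ⟨-, rfl⟩ := mem_filter.1 hb
    rfl

variable {E : (κ → α) → Prop}

lemma PK.empty : PK E (∅ : Finset (κ × α)) := ⟨∅, by simp, by simp, by simp⟩

lemma PK.single {g : κ → α} (h : E g) : PK E (cl g) := ⟨{g}, by simpa, by simp, by simp⟩

lemma PK.union {U U' : Finset (κ × α)} (h : PK E U) (h' : PK E U') (hd : Disjoint U U') :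
    PK E (U ∪ U') := by
  obtain ⟨M, h1, h2, rfl⟩ := h
  obtain ⟨M', h1', h2', rfl⟩ := h'
  refine ⟨M ∪ M', fun g hg => (mem_union.1 hg).elim (h1 g) (h1' g), ?_, union_biUnion⟩
  rw [coe_union]
  exact h2.union h2' fun g hg g' hg' _ =>
    hd.mono (subset_biUnion_of_mem _ hg) (subset_biUnion_of_mem _ hg')

lemma PK.biUnion {ι : Type} [DecidableEq ι] (s : Finset ι) (U : ι → Finset (κ × α))
    (h : ∀ i ∈ s, PK E (U i)) (hd : ∀ i ∈ s, ∀ j ∈ s, i ≠ j → Disjoint (U i) (U j)) :
    PK E (s.biUnion U) := by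
  induction s using Finset.induction_on with
  | empty => simpa using PK.empty
  | insert i s hi ih =>
    rw [biUnion_insert]
    refine (h i (mem_insert_self _ _)).union (ih (fun j hj => h j (mem_insert_of_mem hj))
      fun j hj k hk => hd j (mem_insert_of_mem hj) k (mem_insert_of_mem hk)) ?_
    rw [disjoint_biUnion_right]
    exact fun j hj => hd i (mem_insert_self _ _) j (mem_insert_of_mem hj) fun e => hi (e ▸ hj)

lemma PK.sum {A : Type} [AddCommMonoid A] {U : Finset (κ × α)} (h : PK E U) :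
    ∃ M : Finset (κ → α), (∀ g ∈ M, E g) ∧
      ∀ F : κ × α → A, ∑ b ∈ U, F b = ∑ g ∈ M, ∑ j, F (j, g j) := by
  obtain ⟨M, h1, h2, rfl⟩ := h
  refine ⟨M, h1, fun F => ?_⟩
  rw [sum_biUnion h2]
  exact sum_congr rfl fun g _ => sum_image fun a _ b _ h => (Prod.ext_iff.1 h).1

lemma PK.bal {U : Finset (κ × α)} (h : PK E U) : ∃ m, ∀ j, sz U j = m := by
  obtain ⟨M, -, h2⟩ := h.sum (A := ℕ)
  refine ⟨M.card, fun j => ?_⟩
  rw [sz, card_filter, h2]
  simp

lemma PK.wt {A : Type} [AddCommGroup A] {lam : κ → α → A} (h : ∀ g, E g → ∑ k, lam k (g k) = 0)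
    {U : Finset (κ × α)} (hU : PK E U) : ∑ b ∈ U, lam b.1 b.2 = 0 := by
  obtain ⟨M, h1, h2⟩ := hU.sum (A := A)
  rw [h2]
  exact sum_eq_zero fun g hg => h g (h1 g hg)

lemma PK.full (o : κ) (h : PK E univ) :
    ∃ T : α → κ → α, (∀ i, E (T i)) ∧ ∀ j, Injective (fun i => T i j) := by
  obtain ⟨M, h1, h2, h3⟩ := h
  have h7 : ∀ i, ∃ g ∈ M, g o = i := by
    intro i
    obtain ⟨g, hg, e⟩ := mem_biUnion.1 (h3 ▸ mem_univ (o, i) : (o, i) ∈ M.biUnion cl)
    exact ⟨g, hg, mem_cl.1 e⟩
  choose T t1 t2 using h7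
  refine ⟨T, fun i => h1 _ (t1 i), fun j i i' h => ?_⟩
  by_contra hne
  exact disjoint_cl.1 (h2 (t1 i) (t1 i') fun e => hne (by rw [← t2 i, e, t2 i'])) j h

/-- the value that completes a line to a cell -/
noncomputable def sol (hE : LK E) (k : κ) (g : κ → α) : α := (hE k g).choose

lemma sol_spec (hE : LK E) (k : κ) (g : κ → α) : E (update g k (sol hE k g)) :=
  (hE k g).choose_spec.1

lemma sol_eq (hE : LK E) {k : κ} {g : κ → α} {t : α} (h : E (update g k t)) : sol hE k g = t :=
  ((hE k g).choose_spec.2 t h).symm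

lemma sol_self (hE : LK E) (k : κ) {g : κ → α} (h : E g) : sol hE k g = g k :=
  sol_eq hE (by rwa [update_eq_self])

lemma sol_up (hE : LK E) (k : κ) (g : κ → α) (t : α) : sol hE k (update g k t) = sol hE k g :=
  sol_eq hE (by rw [update_idem]; exact sol_spec hE k g)

lemma sol_inj (hE : LK E) {j k : κ} (h : j ≠ k) (g : κ → α) :
    Injective (fun t => sol hE k (update g j t)) := fun t t' e => by
  have h1 := sol_spec hE k (update g j t)
  have h2 := sol_spec hE k (update g j t')
  simp only at e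
  rw [update_comm h] at h1 h2
  rw [← e] at h2
  exact (hE j _).unique h1 h2

lemma cnt (j : κ) (Q P : (κ → α) → Prop) [DecidablePred Q] [DecidablePred P]
    (hQ : ∀ g, ∃! t, Q (update g j t)) (hP : ∀ g t, P (update g j t) ↔ P g) :
    (univ.filter (fun g => Q g ∧ P g)).card * Fintype.card α = (univ.filter P).card := by
  choose s hs hu using hQ
  rw [← card_univ, ← card_product]
  refine card_nbij' (fun p => update p.1 j p.2) (fun g => (update g j (s g), g j))
    (fun p hp => ?_) (fun g hg => ?_) (fun p hp => ?_) (fun g _ => by simp)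
  · simp only [coe_product, coe_filter, Set.mem_prod, Set.mem_ofPred_eq, mem_univ, true_and] at hp ⊢
    exact (hP _ _).2 hp.1.2
  · simp only [coe_product, coe_filter, Set.mem_prod, Set.mem_ofPred_eq, mem_univ, true_and,
      coe_univ, Set.mem_univ, and_true] at hg ⊢
    exact ⟨hs g, (hP _ _).2 hg⟩
  · simp only [coe_product, coe_filter, Set.mem_prod, Set.mem_ofPred_eq, mem_univ, true_and] at hp
    have := hu (update p.1 j p.2) (p.1 j) (by simpa using hp.1.1)
    simp [← this]

variable [DecidablePred E]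

/-- the cells through a vertex -/
def Cn (E : (κ → α) → Prop) [DecidablePred E] (j : κ) (t : α) : Finset (κ → α) :=
  univ.filter (fun g => E g ∧ g j = t)

lemma mem_Cn {j : κ} {t : α} {g : κ → α} : g ∈ Cn E j t ↔ E g ∧ g j = t := by simp [Cn]

lemma cn_aux (hE : LK E) {a k : κ} (h : a ≠ k) (r : α) :
    (Cn E a r).card * Fintype.card α = (univ.filter (fun g : κ → α => g a = r)).card :=
  cnt k E (fun g => g a = r) (hE k) fun g t => by rw [update_of_ne h]

lemma card_Cn (hE : LK E) {a k : κ} (h : a ≠ k) (r : α) :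
    (Cn E a r).card = Fintype.card α ^ (Fintype.card κ - 2) := by
  have h0 : 0 < Fintype.card α := Fintype.card_pos_iff.2 ⟨r⟩
  have h1 := cnt a (fun g : κ → α => g a = r) (fun _ => True) (fun g => by simp) (by simp)
  have h2 : 2 ≤ Fintype.card κ := Fintype.one_lt_card_iff.2 ⟨a, k, h⟩
  simp only [and_true, filter_true, card_univ, Fintype.card_fun, ← cn_aux hE h r] at h1
  rw [show Fintype.card κ = Fintype.card κ - 2 + 1 + 1 by omega, pow_succ, pow_succ] at h1
  exact Nat.eq_of_mul_eq_mul_right h0 (Nat.eq_of_mul_eq_mul_right h0 h1)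

lemma cn_two (hE : LK E) {a b k : κ} (hab : a ≠ b) (hak : a ≠ k) (r : α)
    (Q : (κ → α) → Prop) [DecidablePred Q] (h1 : ∀ g, ∃! t, Q (update g b t))
    (h2 : ∀ g t, Q (update g k t) ↔ Q g) :
    ((Cn E a r).filter Q).card * Fintype.card α = (Cn E a r).card := by
  have h0 : 0 < Fintype.card α := Fintype.card_pos_iff.2 ⟨r⟩
  refine Nat.eq_of_mul_eq_mul_right h0 ?_
  rw [cn_aux hE hak, ← cnt b Q (fun g => g a = r) h1 fun g t => by rw [update_of_ne hab],
    ← cnt k E (fun g => Q g ∧ g a = r) (hE k) fun g t => by rw [update_of_ne hak, h2], Cn,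
    filter_filter]
  congr 3
  ext g
  simp only [mem_filter]
  tauto

end Pool.Agent.Lib.MP_356f68_co.Hyp
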