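import Mathlib
import Pool.Agent.Lib.MP_356f68_co.Hyp.Base

/-! Functions on pairs that are invariant under all moves come from an abelian labelling. -/

set_option autoImplicit false
set_option linter.unusedSectionVars false

namespace Pool.Agent.Lib.MP_356f68_co.Hyp

open Finset Function Pool.Agent.Lib.MP_356f68_co.Win

section square

variable {α : Type} [Fintype α] [DecidableEq α] {m : α → α → α} {e : α}
  {G : (α × α → ℝ) → Prop}

/-- the congruence of a family of functions -/
def cf (G : (α × α → ℝ) → Prop) : Setoid α where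
  r a b := ∀ g, G g → ∀ u, g (u, a) = g (u, b)
  iseqv := ⟨fun _ _ _ _ => rfl, fun h g hg u => (h g hg u).symm,
    fun h h' g hg u => (h g hg u).trans (h' g hg u)⟩

lemma cf_mul (h1 : ∀ a, m e a = a) (h2 : ∀ a, m a e = a) (hG : ∀ g, G g → Inv m g)
    {a b a' b' : α} (h : (cf G).r a b) (h' : (cf G).r a' b') : (cf G).r (m a a') (m b b') := by
  intro g hg u
  have hi := hG g hg
  rw [i_right h1 h2 hi, h g hg, ← i_right h1 h2 hi, ← i_left h1 h2 hi, h' g hg, i_left h1 h2 hi]

lemma loop_lab (hm : Lq m) (h1 : ∀ a, m e a = a) (h2 : ∀ a, m a e = a)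
    (hG : ∀ g, G g → Inv m g) :
    ∃ (A : Type) (_ : AddCommGroup A) (σ : α → A), (∀ a b, σ a + σ b = σ (m a b)) ∧
      Surjective σ ∧ ∀ a b, σ a = σ b ↔ (cf G).r a b := by
  let M : CommMonoid (Quotient (cf G)) :=
    { mul := Quotient.map₂ m fun _ _ h _ _ h' => cf_mul h1 h2 hG h h'
      mul_assoc := fun a b c => Quotient.inductionOn₃ a b c fun a b c =>
        Quotient.sound fun g hg => cg_assoc hm h1 h2 a b c g (hG g hg)
      one := Quotient.mk _ e
      one_mul := fun a => Quotient.inductionOn a fun a => congrArg (Quotient.mk _) (h1 a)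
      mul_one := fun a => Quotient.inductionOn a fun a => congrArg (Quotient.mk _) (h2 a)
      mul_comm := fun a b => Quotient.inductionOn₂ a b fun a b =>
        Quotient.sound fun g hg => cg_comm hm h1 h2 a b g (hG g hg) }
  let H : CommGroup (Quotient (cf G)) := commGroupOfIsUnit fun a =>
    Quotient.inductionOn a fun a => by
      obtain ⟨b, hb⟩ := (hm.row a).2 e
      exact IsUnit.of_mul_eq_one (Quotient.mk _ b) (congrArg (Quotient.mk _) hb)
  exact ⟨Additive (Quotient (cf G)), inferInstance, fun a => Additive.ofMul (Quotient.mk _ a),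
    fun a b => rfl, fun x => Quotient.exists_rep (Additive.toMul x),
    fun a b => ⟨fun h => Quotient.exact (Additive.ofMul.injective h),
      fun h => congrArg Additive.ofMul (Quotient.sound h)⟩⟩

theorem sq_lab [Nonempty α] {L : α → α → α} (hL : Lq L) (hG : ∀ g, G g → Inv L g) :
    ∃ (A : Type) (_ : AddCommGroup A) (φ ψ σ : α → A), (∀ r c, φ r + ψ c = σ (L r c)) ∧
      Surjective φ ∧ Surjective ψ ∧
      (∀ u v : α × α, φ u.1 + ψ u.2 = φ v.1 + ψ v.2 → ∀ g, G g → g u = g v) ∧
      ∀ x y : A, (∀ t, ∃ u v : α × α, φ u.1 + ψ u.2 = t + x ∧ φ v.1 + ψ v.2 = t + y ∧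
        ∀ g, G g → g u = g v) → x = y := by
  obtain ⟨o⟩ := ‹Nonempty α›
  let ρ := Equiv.ofBijective _ (hL.col o)
  let γ := Equiv.ofBijective _ (hL.row o)
  have hρ : ∀ r, ρ.symm (L r o) = r := fun r => ρ.symm_apply_apply r
  have hγ : ∀ c, γ.symm (L o c) = c := fun c => γ.symm_apply_apply c
  let m : α → α → α := fun a b => L (ρ.symm a) (γ.symm b)
  have h1 : ∀ a, m (L o o) a = a := fun a => by
    simp only [m, hρ]; exact γ.apply_symm_apply a
  have h2 : ∀ a, m a (L o o) = a := fun a => by
    simp only [m, hγ]; exact ρ.apply_symm_apply a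
  have hm : Lq m := ⟨fun a => (hL.row _).comp γ.symm.bijective,
    fun b => (hL.col _).comp ρ.symm.bijective⟩
  let tr : (α × α → ℝ) → α × α → ℝ := fun g p => g (ρ.symm p.1, γ.symm p.2)
  have hi : ∀ g, G g → Inv m (tr g) := fun g hg x y a b hab =>
    hG g hg (ρ.symm x) (γ.symm y) _ _ hab
  obtain ⟨A, iA, σ, s1, s0, s2⟩ := loop_lab (G := fun g' => ∃ g, G g ∧ g' = tr g) hm h1 h2
    (by rintro _ ⟨g, hg, rfl⟩; exact hi g hg)
  have s3 : ∀ r c, σ (L r o) + σ (L o c) = σ (L r c) := fun r c => by
    rw [s1]; simp only [m, hρ, hγ]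
  have s4 : ∀ u v : α × α, σ (L u.1 o) + σ (L o u.2) = σ (L v.1 o) + σ (L o v.2) →
      ∀ g, G g → g u = g v := fun u v h g hg => by
    have k : ∀ u : α × α, g u = g (ρ.symm (L o o), γ.symm (L u.1 u.2)) := fun u => by
      have := i_left h1 h2 (hi g hg) (L u.1 o) (L o o) (L o u.2)
      rw [h2] at this
      simpa only [tr, m, hρ, hγ] using this
    rw [k u, k v]
    rw [s3, s3] at h
    exact (s2 _ _).1 h _ ⟨g, hg, rfl⟩ (L o o)
  have s5 : Surjective (fun c => σ (L o c)) := s0.comp (hL.row o).2
  refine ⟨A, iA, fun r => σ (L r o), fun c => σ (L o c), σ, s3, s0.comp (hL.col o).2, s5, s4,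
    fun x y h => ?_⟩
  obtain ⟨c, rfl⟩ := s5 x
  obtain ⟨c', rfl⟩ := s5 y
  refine (s2 _ _).2 ?_
  rintro _ ⟨g, hg, rfl⟩ w
  obtain ⟨u, v, a1, a2, a3⟩ := h (σ (L (ρ.symm w) o))
  simp only [tr, hγ]
  rw [← s4 u (ρ.symm w, c) a1 g hg, ← s4 v (ρ.symm w, c') a2 g hg, a3 g hg]

end square

variable {κ α : Type} [Fintype κ] [DecidableEq κ] [Fintype α] [DecidableEq α]
  {E : (κ → α) → Prop}

lemma swap_add {A : Type} [AddCommGroup A] (χ : (κ → α) → A)
    (h : ∀ k w w', χ w + χ w' = χ (update w k (w' k)) + χ (update w' k (w k))) (o w : κ → α) :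
    χ w = χ o + ∑ k, (χ (update o k (w k)) - χ o) := by
  have : ∀ s : Finset κ, χ (s.piecewise w o) = χ o + ∑ k ∈ s, (χ (update o k (w k)) - χ o) := by
    intro s
    induction s using Finset.induction_on with
    | empty => simp
    | insert k s hk ih =>
      have g := h k (s.piecewise w o) (update o k (w k))
      rw [update_self, update_idem, piecewise_eq_of_notMem _ _ _ hk, update_eq_self,
        ← piecewise_insert] at g
      rw [sum_insert hk]
      linear_combination (norm := abel) ih - g
  simpa using this univ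

/-- functions that no move changes -/
def IvK (E : (κ → α) → Prop) (a b : κ) (f : α × α → ℝ) : Prop :=
  ∀ k g g' r c, k ≠ a → k ≠ b → E g → E g' → E (update (update g k (g' k)) a r) →
    E (update (update g' k (g k)) b c) → f (g a, g' b) = f (r, c)

/-- the square in the layer of `w` -/
noncomputable def lay (hE : LK E) (a b k : κ) (w : κ → α) (r c : α) : α :=
  sol hE k (update (update w a r) b c)

lemma lq_lay (hE : LK E) {a b k : κ} (hab : a ≠ b) (hak : a ≠ k) (hbk : b ≠ k) (w : κ → α) :
    Lq (lay hE a b k w) :=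
  ⟨fun r => Finite.injective_iff_bijective.1 (sol_inj hE hbk _), fun c =>
    Finite.injective_iff_bijective.1 (by
      simp only [lay, update_comm hab]
      exact sol_inj hE hak _)⟩

lemma half {A : Type} [AddCommGroup A] (hE : LK E) {a b k : κ} (hab : a ≠ b) (hak : a ≠ k)
    (hbk : b ≠ k) (o : κ → α) {φ ψ σ : α → A} (h : ∀ r c, φ r + ψ c = σ (lay hE a b k o r c))
    (hφ : Surjective φ) (rel : α × α → α × α → Prop)
    (hI : ∀ g g' r c, E g → E g' → E (update (update g k (g' k)) a r) →
      E (update (update g' k (g k)) b c) → rel (g a, g' b) (r, c))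
    (hS : ∀ x y : A, (∀ t, ∃ u v : α × α, φ u.1 + ψ u.2 = t + x ∧ φ v.1 + ψ v.2 = t + y ∧
      rel u v) → x = y) (w : κ → α) (r : α) :
    φ r - σ (sol hE k (update w a r)) = φ (w a) - σ (sol hE k w) := by
  set s := sol hE k (update w a r)
  set s' := sol hE k w
  rw [sub_eq_sub_iff_add_eq_add]
  refine (hS _ _ fun t => ?_).symm
  obtain ⟨x, hx⟩ := hφ (-t)
  obtain ⟨c, hc⟩ := ((lq_lay hE hab hak hbk o).row x).2 s
  obtain ⟨c', hc'⟩ := ((lq_lay hE hab hak hbk o).row x).2 s'
  have e1 := h x c
  have e2 := h x c'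
  rw [hc, hx] at e1
  rw [hc', hx] at e2
  refine ⟨(w a, c), (r, c'), by linear_combination (norm := abel) e1,
    by linear_combination (norm := abel) e2, ?_⟩
  have := hI (update w k s') (update (update (update o a x) b c) k s) r c' (sol_spec hE k w)
    (hc ▸ sol_spec hE k _) (by
      rw [update_self, update_idem, update_comm hak.symm]
      exact sol_spec hE k _) (by
      rw [update_self, update_idem, update_comm hbk.symm, update_idem, ← hc']
      exact sol_spec hE k _)
  rwa [update_of_ne hak, update_of_ne hbk, update_self] at this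

theorem labK [Nonempty α] (hE : LK E) {a b k : κ} (hab : a ≠ b) (hak : a ≠ k) (hbk : b ≠ k) :
    ∃ (A : Type) (_ : AddCommGroup A) (lam : κ → α → A), (∀ g, E g → ∑ j, lam j (g j) = 0) ∧
      ∀ u v : α × α, lam a u.1 + lam b u.2 = lam a v.1 + lam b v.2 →
        ∀ f, IvK E a b f → f u = f v := by
  obtain ⟨o⟩ : Nonempty (κ → α) := inferInstance
  obtain ⟨A, iA, φ, ψ, σ, h, hφ, hψ, h2, hS⟩ := sq_lab (G := IvK E a b)
    (lq_lay hE hab hak hbk o) (fun f hf x y u v huv => by
      have := hf k (update (update (update o a u.1) b y) k (lay hE a b k o u.1 y))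
        (update (update (update o a x) b u.2) k (lay hE a b k o x u.2)) v.1 v.2 hak.symm hbk.symm
        (sol_spec hE k _) (sol_spec hE k _) (by
          rw [update_self, update_idem, update_comm hak.symm, update_comm hab.symm, update_idem,
            ← huv.1]
          exact sol_spec hE k _) (by
          rw [update_self, update_idem, update_comm hbk.symm, update_idem, ← huv.2]
          exact sol_spec hE k _)
      rwa [update_of_ne hak, update_of_ne hbk, update_self, update_of_ne hab, update_self] at this)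
  have a1 := half hE hab hak hbk o h hφ (fun u v => ∀ f, IvK E a b f → f u = f v)
    (fun g g' r c e1 e2 e3 e4 f hf => hf k g g' r c hak.symm hbk.symm e1 e2 e3 e4) hS
  have a2 := half hE hab.symm hbk hak o (φ := ψ) (ψ := φ) (σ := σ) (fun c r => by
      rw [add_comm, h, lay, lay, update_comm hab]) hψ
    (fun u v => ∀ f, IvK E a b f → f u.swap = f v.swap)
    (fun g g' r c e1 e2 e3 e4 f hf => hf k g' g c r hak.symm hbk.symm e2 e1 e4 e3)
    (fun x y hxy => hS x y fun t => by
      obtain ⟨u, v, e1, e2, e3⟩ := hxy t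
      exact ⟨u.swap, v.swap, by rw [← e1, add_comm]; rfl, by rw [← e2, add_comm]; rfl, e3⟩)
  let χ : (κ → α) → A := fun w => φ (w a) + ψ (w b) - σ (sol hE k w)
  have c1 : ∀ w r, χ (update w a r) = χ w := fun w r => by
    simp only [χ, update_self, update_of_ne hab.symm]
    linear_combination (norm := abel) a1 w r
  have c2 : ∀ w c, χ (update w b c) = χ w := fun w c => by
    simp only [χ, update_self, update_of_ne hab]
    linear_combination (norm := abel) a2 w c
  have c3 : ∀ w s, χ (update w k s) = χ w := fun w s => by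
    simp only [χ, update_of_ne hak, update_of_ne hbk, sol_up]
  have c4 : ∀ g, E g → χ g = φ (g a) + ψ (g b) - σ (g k) := fun g hg => by
    simp only [χ, sol_self hE k hg]
  have c5 : ∀ j w w', χ w + χ w' = χ (update w j (w' j)) + χ (update w' j (w j)) := by
    intro j w w'
    by_cases j1 : j = a
    · rw [j1, c1, c1]
    by_cases j2 : j = b
    · rw [j2, c2, c2]
    by_cases j3 : j = k
    · rw [j3, c3, c3]
    refine hS _ _ fun t => ?_
    obtain ⟨g, g1, g2⟩ : ∃ g, E g ∧ g = update w k (sol hE k w) := ⟨_, sol_spec hE k w, rfl⟩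
    obtain ⟨x, hx⟩ := hφ (σ (g k) + σ (w' k) - ψ (g b) - t)
    obtain ⟨g', g3, g4⟩ : ∃ g', E g' ∧ g' = update (update w' a x) b (sol hE b (update w' a x)) :=
      ⟨_, sol_spec hE b _, rfl⟩
    have e1 := sol_spec hE a (update g j (g' j))
    have e2 := sol_spec hE b (update g' j (g j))
    have f1 := c4 g g1
    have f2 := c4 g' g3
    have f3 := c4 _ e1
    have f4 := c4 _ e2
    have f5 : g' a = x := by rw [g4, update_of_ne hab, update_self]
    have f6 : g' k = w' k := by rw [g4, update_of_ne hbk.symm, update_of_ne hak.symm]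
    have f7 : g' j = w' j := by rw [g4, update_of_ne j2, update_of_ne j1]
    have f8 : g j = w j := by rw [g2, update_of_ne j3]
    have f9 : χ (update g j (g' j)) = χ (update w j (w' j)) := by
      rw [f7, g2, update_comm (Ne.symm j3), c3]
    have f10 : χ (update g' j (g j)) = χ (update w' j (w j)) := by
      rw [f8, g4, update_comm (Ne.symm j2), c2, update_comm (Ne.symm j1), c1]
    have f11 : χ g = χ w := by rw [g2, c3]
    have f12 : χ g' = χ w' := by rw [g4, c2, c1]
    rw [c1, f9, update_self, update_of_ne hab.symm, update_of_ne (Ne.symm j2),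
      update_of_ne hak.symm, update_of_ne (Ne.symm j3)] at f3
    rw [c2, f10, update_self, update_of_ne hab, update_of_ne (Ne.symm j1),
      update_of_ne hbk.symm, update_of_ne (Ne.symm j3), f5, f6] at f4
    rw [f11] at f1
    rw [f12, f5, f6] at f2
    exact ⟨(g a, g' b), (_, _), by linear_combination (norm := abel) -f1 - f2 - hx,
      by linear_combination (norm := abel) -f3 - f4 - hx,
      fun f hf => hf j g g' _ _ j1 j2 g1 g3 e1 e2⟩
  refine ⟨A, iA, fun j t => (if j = a then φ t else 0) + (if j = b then ψ t else 0)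
    - (if j = k then σ t + χ o else 0) - (χ (update o j t) - χ o), fun g hg => ?_,
    fun u v huv => h2 u v ?_⟩
  · simp only [sum_sub_distrib (f := fun j => _ - _), sum_add_distrib, sum_sub_distrib
      (f := fun j => _ + _), sum_ite_eq', mem_univ, if_true]
    linear_combination (norm := abel) swap_add χ c5 o g - c4 g hg
  · simpa [hab, hab.symm, hak, hbk, c1, c2] using huv

end Pool.Agent.Lib.MP_356f68_co.Hyp
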