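import Mathlib
import Pool.Agent.Lib.MP_356f68_co.Hyp.Base

/-! The parity obstruction, and a Poincare inequality for reversible families of moves. -/

set_option autoImplicit false
set_option linter.unusedSectionVars false

namespace Pool.Agent.Lib.MP_356f68_co.Hyp

open Finset Function Pool.Agent.Lib.MP_356f68_co.Win

section

variable {κ α : Type} [Fintype κ] [DecidableEq κ] [Fintype α] [DecidableEq α]
  {E : (κ → α) → Prop}

lemma sum_up {A : Type} [AddCommGroup A] (lam : κ → α → A) (g : κ → α) (j : κ) (t : α) :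
    ∑ i, lam i (update g j t i) = ∑ i, lam i (g i) - lam j (g j) + lam j t := by
  rw [← add_sum_erase _ _ (mem_univ j), ← add_sum_erase _ (fun i => lam i (g i)) (mem_univ j),
    update_self, sum_congr rfl fun i hi => by rw [update_of_ne (ne_of_mem_erase hi)]]
  abel

theorem parity [Nonempty α] (hE : LK E) {a b k : κ} (hab : a ≠ b) (hak : a ≠ k) (hbk : b ≠ k)
    (hp : Even (Fintype.card κ) ∨ Odd (Fintype.card α)) {A : Type} [AddCommGroup A]
    (lam : κ → α → A) (h : ∀ g, E g → ∑ j, lam j (g j) = 0) : ∑ j, ∑ t, lam j t = 0 := by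
  set n := Fintype.card α with hn
  have key : ∀ e, E e → ∀ j j', j ≠ j' →
      (∑ t, lam j t - n • lam j (e j)) + (∑ t, lam j' t - n • lam j' (e j')) = 0 := by
    intro e he j j' hj
    have h1 := fun t => h _ (sol_spec hE j' (update e j t))
    simp only [sum_up, h e he, update_of_ne hj.symm] at h1
    have h2 := sum_eq_zero (s := univ) fun t _ => h1 t
    simp only [sum_add_distrib, sum_sub_distrib, sum_const, card_univ, ← hn, smul_zero,
      (Finite.injective_iff_bijective.1 (sol_inj hE hj e)).sum_comp (lam j')] at h2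
    linear_combination (norm := abel) h2
  obtain ⟨o⟩ : Nonempty (κ → α) := inferInstance
  obtain ⟨e, he⟩ : ∃ e, E e := ⟨_, sol_spec hE a o⟩
  obtain ⟨d, hd⟩ : ∃ d, d = ∑ t, lam a t - n • lam a (e a) := ⟨_, rfl⟩
  have h2 : 2 • d = 0 := by
    rw [two_smul, hd]
    linear_combination (norm := abel) key e he a b hab + key e he a k hak - key e he b k hbk
  have h3 : ∑ j, ∑ t, lam j t = Fintype.card κ • d := by
    have g1 : ∀ j, ∑ t, lam j t = d + n • lam j (e j) := fun j => by
      by_cases hj : a = j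
      · rw [← hj, hd, sub_add_cancel]
      · rw [two_smul] at h2
        linear_combination (norm := abel) key e he a j hj - h2 + hd
    simp only [g1, sum_add_distrib, ← smul_sum, h e he, smul_zero, add_zero, sum_const, card_univ]
  rw [h3]
  rcases hp with ⟨m, hm⟩ | ⟨m, hm⟩
  · rw [hm, ← two_mul, mul_comm, mul_smul, h2, smul_zero]
  have h4 : ∀ t, n • lam a t = n • lam a (e a) := fun t => by
    have g := key _ (sol_spec hE k (update e a t)) a b hab
    rw [update_of_ne hak, update_of_ne hbk, update_self, update_of_ne hab.symm] at g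
    linear_combination (norm := abel) key e he a b hab - g
  have h5 : n • d = 0 := by
    rw [hd, smul_sub, smul_sum]
    simp only [h4, sum_const, card_univ, ← hn, sub_self]
  rw [hm, add_smul, mul_comm, mul_smul, h2, smul_zero, zero_add, one_smul] at h5
  rw [h5, smul_zero]

lemma trans_zero {T : α → κ → α} (h1 : ∀ i, E (T i)) (h2 : ∀ j, Injective (fun i => T i j))
    {A : Type} [AddCommGroup A] (lam : κ → α → A) (h : ∀ g, E g → ∑ j, lam j (g j) = 0) :
    ∑ j, ∑ t, lam j t = 0 := by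
  rw [sum_congr rfl fun j _ => ((Finite.injective_iff_bijective.1 (h2 j)).sum_comp (lam j)).symm,
    sum_comm]
  exact sum_eq_zero fun i _ => h _ (h1 i)

end

lemma poinc {V W : Type} [Fintype V] [DecidableEq V] [DecidableEq W] (Wa : Finset W)
    (Gd : W → Prop) [DecidablePred Gd] (src : W → V) (rev : W → W)
    (hrev : ∀ w ∈ Wa, rev w ∈ Wa ∧ rev (rev w) = w ∧ (Gd (rev w) → Gd w)) {N δ η : ℝ}
    (hN0 : 0 < N) (hN : ∀ u, ((Wa.filter (fun w => src w = u)).card : ℝ) = N)
    (hδ : ∀ u, (((Wa.filter (fun w => src w = u)).filter (fun w => ¬ Gd w)).card : ℝ) ≤ δ)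
    (hη : 4 * δ ≤ η * N)
    (hW : ∀ (f : V → ℝ) (μ : ℝ), f ≠ 0 → (∀ u, ∑ w ∈ Wa.filter (fun w => src w = u),
      f (src (rev w)) = μ * N * f u) → μ = 1 ∨ μ ≤ 1 - η) (f : V → ℝ)
    (hf : ∀ g : V → ℝ, (∀ w ∈ Wa, g (src w) = g (src (rev w))) → ∑ v, f v * g v = 0) :
    η * N * ∑ v, f v ^ 2 ≤ ∑ w ∈ Wa.filter Gd, (f (src w) - f (src (rev w))) ^ 2 := by
  let A : Matrix V V ℝ := fun u v => ∑ w ∈ Wa, if src w = u ∧ src (rev w) = v then 1 else 0
  have r0 : ∀ F : W → ℝ, ∑ w ∈ Wa, F (rev w) = ∑ w ∈ Wa, F w := fun F =>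
    sum_nbij' rev rev (fun w hw => (hrev w hw).1) (fun w hw => (hrev w hw).1)
      (fun w hw => (hrev w hw).2.1) (fun w hw => (hrev w hw).2.1) fun _ _ => rfl
  have a0 : A.IsSymm := by
    ext u v
    simp only [A, Matrix.transpose_apply]
    rw [← r0]
    exact sum_congr rfl fun w hw => by rw [(hrev w hw).2.1]; exact if_congr and_comm rfl rfl
  have a1 : ∀ u (F : V → ℝ), ∑ v, A u v * F v
      = ∑ w ∈ Wa.filter (fun w => src w = u), F (src (rev w)) := by
    intro u F
    simp only [A, sum_mul, ite_mul, one_mul, zero_mul]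
    rw [sum_comm, sum_filter]
    refine sum_congr rfl fun w _ => ?_
    by_cases h : src w = u <;> simp [h]
  have a2 : ∀ (S : Finset W) (F : V → ℝ),
      ∑ w ∈ S, F (src w) = ∑ u, (S.filter (fun w => src w = u)).card * F u := by
    intro S F
    rw [← sum_fiberwise (g := src)]
    refine sum_congr rfl fun u _ => ?_
    rw [sum_congr rfl (g := fun _ => F u) fun w hw => by rw [(mem_filter.1 hw).2], sum_const,
      nsmul_eq_mul]
  have a3 : ∀ F : V → ℝ, ∑ w ∈ Wa, (F (src w) - F (src (rev w))) ^ 2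
      = 2 * N * ∑ v, F v ^ 2 - 2 * ∑ u, F u * ∑ v, A u v * F v := by
    intro F
    have e1 : ∑ u, F u * ∑ v, A u v * F v = ∑ w ∈ Wa, F (src w) * F (src (rev w)) := by
      rw [← sum_fiberwise (g := src)]
      refine sum_congr rfl fun u _ => ?_
      rw [a1, mul_sum]
      exact sum_congr rfl fun w hw => by rw [(mem_filter.1 hw).2]
    have e2 := a2 Wa (fun v => F v ^ 2)
    have e3 := r0 (fun w => F (src w) ^ 2)
    simp only [hN, ← mul_sum] at e2
    simp only [sub_sq, sum_add_distrib, sum_sub_distrib, mul_assoc, ← mul_sum, e1, e2, e3]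
    ring
  have a4 := rayleigh A a0 ((1 - η) * N) f fun g μ g0 g1 => by
    rcases hW g (μ / N) g0 (fun u => by rw [← a1, g1]; field_simp) with g2 | g2
    · refine Or.inr (hf g fun w hw => ?_)
      have g3 := a3 g
      rw [div_eq_one_iff_eq hN0.ne'] at g2
      simp only [g1, g2, mul_left_comm _ N, ← sq, ← mul_sum] at g3
      have g4 := (sum_eq_zero_iff_of_nonneg (s := Wa)
        (f := fun w => (g (src w) - g (src (rev w))) ^ 2)
        fun _ _ => sq_nonneg _).1 (by rw [g3]; ring) w hw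
      exact sub_eq_zero.1 (pow_eq_zero_iff two_ne_zero |>.1 g4)
    · exact Or.inl ((div_le_iff₀ hN0).1 g2)
  set D := Wa.filter (fun w => ¬ Gd w) with hD
  have b1 : ∑ w ∈ D, f (src w) ^ 2 ≤ δ * ∑ v, f v ^ 2 := by
    rw [a2 D (fun v => f v ^ 2), mul_sum]
    refine sum_le_sum fun u _ => mul_le_mul_of_nonneg_right ?_ (sq_nonneg _)
    rw [hD, filter_comm]
    exact hδ u
  have b0 : ∀ w ∈ D, rev w ∈ D := fun w hw => by
    obtain ⟨h2, h3⟩ := mem_filter.1 hw
    exact mem_filter.2 ⟨(hrev w h2).1, fun e => h3 ((hrev w h2).2.2 e)⟩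
  have b2 : ∑ w ∈ D, f (src (rev w)) ^ 2 = ∑ w ∈ D, f (src w) ^ 2 :=
    sum_nbij' rev rev b0 b0 (fun w hw => (hrev w (mem_filter.1 hw).1).2.1)
      (fun w hw => (hrev w (mem_filter.1 hw).1).2.1) (fun _ _ => rfl)
  have b3 : ∑ w ∈ D, (f (src w) - f (src (rev w))) ^ 2
      ≤ ∑ w ∈ D, (2 * f (src w) ^ 2 + 2 * f (src (rev w)) ^ 2) :=
    sum_le_sum fun w _ => by nlinarith [sq_nonneg (f (src w) + f (src (rev w)))]
  rw [sum_add_distrib, ← mul_sum, ← mul_sum, b2] at b3
  have b4 : ∑ w ∈ Wa.filter Gd, (f (src w) - f (src (rev w))) ^ 2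
      + ∑ w ∈ D, (f (src w) - f (src (rev w))) ^ 2 = _ := sum_filter_add_sum_filter_not _ _ _
  have b5 := mul_le_mul_of_nonneg_right hη (sum_nonneg (s := univ) fun v _ => sq_nonneg (f v))
  rw [a3] at b4
  nlinarith

end Pool.Agent.Lib.MP_356f68_co.Hyp
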