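import Mathlib
import Pool.Agent.Lib.MP_356f68_co.Hyp.Lab
import Pool.Agent.Lib.MP_356f68_co.Hyp.Par

/-! Moves that exchange one coordinate between two cells, and their counts. -/

set_option autoImplicit false
set_option linter.unusedSectionVars false

namespace Pool.Agent.Lib.MP_356f68_co.Hyp

open Finset Function

variable {κ α : Type} [Fintype κ] [DecidableEq κ] [Fintype α] [DecidableEq α]
  {E : (κ → α) → Prop} [DecidablePred E] {a b : κ}

/-- moves: a class and two cells -/
abbrev Wt (κ α : Type) := κ × (κ → α) × (κ → α)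

/-- the classes that can be exchanged -/
def Ks (a b : κ) : Finset κ := univ.filter (fun k => k ≠ a ∧ k ≠ b)

/-- all moves -/
def Wa (E : (κ → α) → Prop) [DecidablePred E] (a b : κ) : Finset (Wt κ α) :=
  univ.filter (fun w => (w.1 ≠ a ∧ w.1 ≠ b) ∧ E w.2.1 ∧ E w.2.2)

/-- the pair a move starts from -/
def sr (a b : κ) (w : Wt κ α) : α × α := (w.2.1 a, w.2.2 b)

/-- the cell that differs from a tuple only in class `j` -/
noncomputable def fx (hE : LK E) (j : κ) (g : κ → α) : κ → α := update g j (sol hE j g)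

/-- the reverse move -/
noncomputable def rv (hE : LK E) (a b : κ) (w : Wt κ α) : Wt κ α :=
  (w.1, fx hE a (update w.2.1 w.1 (w.2.2 w.1)), fx hE b (update w.2.2 w.1 (w.2.1 w.1)))

/-- moves between pairs of disjoint cells -/
def Gd (hE : LK E) (a b : κ) (w : Wt κ α) : Prop :=
  (∀ j, w.2.1 j ≠ w.2.2 j) ∧ ∀ j, (rv hE a b w).2.1 j ≠ (rv hE a b w).2.2 j

/-- no eigenvalue of the move operator lies strictly between `1 - η` and `1` -/
def WnK (E : (κ → α) → Prop) [DecidablePred E] (a b : κ) (η : ℝ) : Prop :=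
  ∀ (f : α → α → ℝ) (μ : ℝ), f ≠ 0 → (∀ r c, ∑ k, ∑ g, ∑ g', ∑ r', ∑ c',
    (if k ≠ a ∧ k ≠ b ∧ g a = r ∧ g' b = c ∧ E g ∧ E g' ∧ E (update (update g k (g' k)) a r') ∧
      E (update (update g' k (g k)) b c') then f r' c' else 0)
    = μ * (((Fintype.card κ - 2 : ℕ) : ℝ) * (Fintype.card α : ℝ) ^ (2 * (Fintype.card κ - 2)))
      * f r c) → μ = 1 ∨ μ ≤ 1 - η

lemma mem_Wa {w : Wt κ α} : w ∈ Wa E a b ↔ (w.1 ≠ a ∧ w.1 ≠ b) ∧ E w.2.1 ∧ E w.2.2 := by
  simp [Wa]

lemma fx_back (hE : LK E) {j k : κ} (h : k ≠ j) {g : κ → α} (hg : E g) (t : α) :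
    fx hE j (update (fx hE j (update g k t)) k (g k)) = g := by
  have e : ∀ s, update (update (update g k t) j s) k (g k) = update g j s := fun s => by
    rw [update_comm h.symm, update_idem, update_eq_self]
  simp only [fx]
  rw [e, sol_up, update_idem, sol_self hE j hg, update_eq_self]

lemma rv_spec (hE : LK E) {w : Wt κ α} (hw : w ∈ Wa E a b) :
    rv hE a b w ∈ Wa E a b ∧ rv hE a b (rv hE a b w) = w := by
  obtain ⟨k, g, g'⟩ := w
  obtain ⟨⟨h1, h2⟩, h3, h4⟩ := mem_Wa.1 hw
  refine ⟨mem_Wa.2 ⟨⟨h1, h2⟩, sol_spec hE _ _, sol_spec hE _ _⟩, ?_⟩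
  have e1 : fx hE a (update g k (g' k)) k = g' k := by rw [fx, update_of_ne h1, update_self]
  have e2 : fx hE b (update g' k (g k)) k = g k := by rw [fx, update_of_ne h2, update_self]
  simp only [rv, e1, e2, fx_back hE h1 h3, fx_back hE h2 h4]

lemma wa_src (u : α × α) : (Wa E a b).filter (fun w => sr a b w = u)
    = Ks a b ×ˢ (Cn E a u.1 ×ˢ Cn E b u.2) := by
  ext w
  simp only [mem_filter, mem_Wa, mem_product, mem_Cn, Ks, sr, Prod.ext_iff, mem_univ, true_and]
  tauto

lemma card_Ks (hab : a ≠ b) : (Ks a b).card = Fintype.card κ - 2 := by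
  rw [← card_pair hab, ← card_univ_sdiff]
  congr 1
  ext k
  simp [Ks]

lemma card_src (hE : LK E) (hab : a ≠ b) (u : α × α) :
    ((Wa E a b).filter (fun w => sr a b w = u)).card
      = (Fintype.card κ - 2) * Fintype.card α ^ (2 * (Fintype.card κ - 2)) := by
  rw [wa_src, card_product, card_product, card_Ks hab, card_Cn hE hab, card_Cn hE hab.symm,
    two_mul, pow_add]

lemma cnt_l (u : α × α) (Q : Wt κ α → Prop) [DecidablePred Q]
    (h : ∀ k g', k ≠ a → k ≠ b → ((Cn E a u.1).filter (fun g => Q (k, g, g'))).card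
      * Fintype.card α ≤ (Cn E a u.1).card) :
    (((Wa E a b).filter (fun w => sr a b w = u)).filter Q).card * Fintype.card α
      ≤ ((Wa E a b).filter (fun w => sr a b w = u)).card := by
  rw [wa_src, card_filter, card_eq_sum_ones, sum_product, sum_product, sum_mul]
  refine sum_le_sum fun k hk => ?_
  rw [sum_product_right, sum_product_right, sum_mul]
  refine sum_le_sum fun g' _ => ?_
  have := (mem_filter.1 hk).2
  rw [← card_filter, ← card_eq_sum_ones]
  exact h k g' this.1 this.2

lemma cnt_r (u : α × α) (Q : Wt κ α → Prop) [DecidablePred Q]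
    (h : ∀ k g, k ≠ a → k ≠ b → ((Cn E b u.2).filter (fun g' => Q (k, g, g'))).card
      * Fintype.card α ≤ (Cn E b u.2).card) :
    (((Wa E a b).filter (fun w => sr a b w = u)).filter Q).card * Fintype.card α
      ≤ ((Wa E a b).filter (fun w => sr a b w = u)).card := by
  rw [wa_src, card_filter, card_eq_sum_ones, sum_product, sum_product, sum_mul]
  refine sum_le_sum fun k hk => ?_
  rw [sum_product, sum_product, sum_mul]
  refine sum_le_sum fun g _ => ?_
  have := (mem_filter.1 hk).2
  rw [← card_filter, ← card_eq_sum_ones]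
  exact h k g this.1 this.2

lemma cn_co (hE : LK E) (hab : a ≠ b) {k j : κ} (h1 : k ≠ a) (h2 : k ≠ b) (hj : j ≠ a) (r t : α) :
    ((Cn E a r).filter (fun g => g j = t)).card * Fintype.card α ≤ (Cn E a r).card := by
  by_cases h : j = b
  · exact (cn_two hE hj.symm h1.symm r (fun g => g j = t) (fun g => by simp)
      fun g s => by rw [update_of_ne (h ▸ h2.symm)]).le
  · exact (cn_two hE hj.symm hab r (fun g => g j = t) (fun g => by simp)
      fun g s => by rw [update_of_ne h]).le

lemma cn_mv (hE : LK E) (hab : a ≠ b) {k : κ} (h1 : k ≠ a) (h2 : k ≠ b) (r x t : α) :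
    ((Cn E a r).filter (fun g => fx hE a (update g k x) a = t)).card * Fintype.card α
      ≤ (Cn E a r).card := by
  refine (cn_two hE hab h1.symm r _ (fun g => ?_) fun g s => by rw [update_idem]).le
  simp only [fx, update_self, update_comm h2.symm]
  exact (Finite.injective_iff_bijective.1 (sol_inj hE hab.symm _)).existsUnique t

lemma card_or {W : Type} [DecidableEq W] (S : Finset W) (P Q R : W → Prop) [DecidablePred P]
    [DecidablePred Q] [DecidablePred R] (h : ∀ w ∈ S, P w → Q w ∨ R w) {n x y : ℕ}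
    (h1 : (S.filter Q).card * n ≤ x) (h2 : (S.filter R).card * n ≤ y) :
    (S.filter P).card * n ≤ x + y := by
  refine le_trans ?_ (Nat.add_le_add h1 h2)
  rw [← add_mul]
  refine Nat.mul_le_mul_right _ ((card_le_card fun w hw => ?_).trans (card_union_le _ _))
  obtain ⟨g1, g2⟩ := mem_filter.1 hw
  simpa only [mem_union, mem_filter, g1, true_and] using h w g1 g2

open Classical in
lemma cnt_deg (hE : LK E) (hab : a ≠ b) (u : α × α) :
    (((Wa E a b).filter (fun w => sr a b w = u)).filter (fun w => ¬ Gd hE a b w)).card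
      * Fintype.card α
      ≤ (Fintype.card κ + 2) * ((Wa E a b).filter (fun w => sr a b w = u)).card := by
  set S := (Wa E a b).filter (fun w => sr a b w = u) with hS
  have h1 : (S.filter (fun w => ∃ j, w.2.1 j = w.2.2 j)).card * Fintype.card α
      ≤ Fintype.card κ * S.card := by
    have g1 : ∀ j, (S.filter (fun w => w.2.1 j = w.2.2 j)).card * Fintype.card α ≤ S.card := by
      intro j
      by_cases hj : j = a
      · refine cnt_r u _ fun k g k1 k2 => ?_
        simpa only [eq_comm (a := g j)] using cn_co hE hab.symm k2 k1 (hj ▸ hab) u.2 (g j)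
      · exact cnt_l u _ fun k g' k1 k2 => cn_co hE hab k1 k2 hj u.1 (g' j)
    have g2 : S.filter (fun w => ∃ j, w.2.1 j = w.2.2 j)
        = univ.biUnion (fun j => S.filter (fun w => w.2.1 j = w.2.2 j)) := by
      ext w; simp
    rw [g2]
    refine (Nat.mul_le_mul_right _ card_biUnion_le).trans ?_
    rw [sum_mul]
    exact (sum_le_sum fun j _ => g1 j).trans (by simp)
  have h2 := cnt_l (E := E) u (fun w => (rv hE a b w).2.1 a = w.2.2 a)
    fun k g' k1 k2 => cn_mv hE hab k1 k2 u.1 (g' k) (g' a)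
  have h3 := cnt_r (E := E) u (fun w => (rv hE a b w).2.2 b = w.2.1 b)
    fun k g k1 k2 => cn_mv hE hab.symm k2 k1 u.2 (g k) (g b)
  rw [add_mul, two_mul]
  refine card_or S _ _ _ (fun w hw hn => ?_) h1 (card_or S _ _ _ (fun w _ h => h) h2 h3)
  obtain ⟨⟨k1, k2⟩, -⟩ := mem_Wa.1 (mem_filter.1 hw).1
  by_contra hc
  simp only [not_or, not_exists] at hc
  refine hn ⟨hc.1, fun j => ?_⟩
  by_cases j1 : j = a
  · rw [j1]
    simpa only [rv, fx, update_of_ne hab, update_of_ne k1.symm] using hc.2.1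
  by_cases j2 : j = b
  · rw [j2]
    simpa only [rv, fx, update_of_ne hab.symm, update_of_ne k2.symm, eq_comm] using hc.2.2
  simp only [rv, fx, update_of_ne j1, update_of_ne j2]
  by_cases j3 : j = w.1
  · rw [j3, update_self, update_self]
    exact Ne.symm (hc.1 _)
  · rw [update_of_ne j3, update_of_ne j3]
    exact hc.1 j

lemma wn_sum (hE : LK E) (f : α × α → ℝ) (u : α × α) :
    ∑ w ∈ (Wa E a b).filter (fun w => sr a b w = u), f (sr a b (rv hE a b w))
      = ∑ k, ∑ g, ∑ g', ∑ r', ∑ c', (if k ≠ a ∧ k ≠ b ∧ g a = u.1 ∧ g' b = u.2 ∧ E g ∧ E g' ∧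
        E (update (update g k (g' k)) a r') ∧ E (update (update g' k (g k)) b c')
        then f (r', c') else 0) := by
  rw [Wa, filter_filter, sum_filter, Fintype.sum_prod_type]
  refine sum_congr rfl fun k _ => ?_
  rw [Fintype.sum_prod_type]
  refine sum_congr rfl fun g _ => sum_congr rfl fun g' _ => ?_
  rw [sum_eq_single (sol hE a (update g k (g' k))) (fun r _ hr => sum_eq_zero fun c _ =>
      if_neg fun h => hr (sol_eq hE h.2.2.2.2.2.2.1).symm) (by simp),
    sum_eq_single (sol hE b (update g' k (g k))) (fun c _ hc =>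
      if_neg fun h => hc (sol_eq hE h.2.2.2.2.2.2.2).symm) (by simp)]
  refine if_congr ?_ (by simp only [sr, rv, fx, update_self]) rfl
  simp only [sr, Prod.ext_iff, sol_spec hE, and_true]
  tauto

lemma ivk_iff (hE : LK E) (f : α × α → ℝ) :
    IvK E a b f ↔ ∀ w ∈ Wa E a b, f (sr a b w) = f (sr a b (rv hE a b w)) := by
  constructor
  · intro h w hw
    obtain ⟨⟨h1, h2⟩, h3, h4⟩ := mem_Wa.1 hw
    simp only [sr, rv, fx, update_self]
    exact h _ _ _ _ _ h1 h2 h3 h4 (sol_spec hE _ _) (sol_spec hE _ _)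
  · intro h k g g' r c h1 h2 h3 h4 h5 h6
    have := h (k, g, g') (mem_Wa.2 ⟨⟨h1, h2⟩, h3, h4⟩)
    simpa only [sr, rv, fx, update_self, sol_eq hE h5, sol_eq hE h6] using this

end Pool.Agent.Lib.MP_356f68_co.Hyp
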