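import Mathlib
import Pool.Agent.Lib.MP_356f68_co.Hyp.Mov

/-! Exchangers and absorbers for tuples that are cells of the abelian quotient. -/

set_option autoImplicit false
set_option linter.unusedSectionVars false

namespace Pool.Agent.Lib.MP_356f68_co.Hyp

open Finset Function Pool.Agent.Lib.MP_356f68_co.Cube

variable {κ α : Type} [Fintype κ] [DecidableEq κ] [Fintype α] [DecidableEq α]
  {E : (κ → α) → Prop} [DecidablePred E] {a b : κ}

/-- the vertices of a pair -/
def lf (a b : κ) (u : α × α) : Finset (κ × α) := {(a, u.1), (b, u.2)}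

/-- the other vertices of a move -/
def lb (a b : κ) (w : Wt κ α) : Finset (κ × α) :=
  univ.filter (fun x => (x.1 ≠ a ∧ w.2.1 x.1 = x.2) ∨ (x.1 ≠ b ∧ w.2.2 x.1 = x.2))

lemma mem_lf {u : α × α} {x : κ × α} :
    x ∈ lf a b u ↔ (x.1 = a ∧ u.1 = x.2) ∨ (x.1 = b ∧ u.2 = x.2) := by
  obtain ⟨j, t⟩ := x
  simp [lf, eq_comm]

lemma lb_lf (w : Wt κ α) : lb a b w ∪ lf a b (sr a b w) = cl w.2.1 ∪ cl w.2.2 := by
  ext ⟨j, t⟩
  simp only [lb, sr, mem_union, mem_filter, mem_univ, true_and, mem_lf, mem_cl]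
  constructor
  · rintro ((h | h) | ⟨rfl, h⟩ | ⟨rfl, h⟩)
    exacts [Or.inl h.2, Or.inr h.2, Or.inl h, Or.inr h]
  · rintro (h | h)
    · by_cases e : j = a
      · exact Or.inr (Or.inl ⟨e, e ▸ h⟩)
      · exact Or.inl (Or.inl ⟨e, h⟩)
    · by_cases e : j = b
      · exact Or.inr (Or.inr ⟨e, e ▸ h⟩)
      · exact Or.inl (Or.inr ⟨e, h⟩)

lemma lb_rv (hE : LK E) {w : Wt κ α} (hw : w ∈ Wa E a b) : lb a b (rv hE a b w) = lb a b w := by
  obtain ⟨⟨k1, k2⟩, -⟩ := mem_Wa.1 hw
  ext ⟨j, t⟩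
  simp only [lb, rv, fx, mem_filter, mem_univ, true_and]
  by_cases h : j = w.1
  · subst h
    simp [k1, k2, or_comm]
  · refine or_congr (and_congr_right fun e => ?_) (and_congr_right fun e => ?_) <;>
      rw [update_of_ne e, update_of_ne h]

open Classical in
lemma exch (hE : LK E) (hab : a ≠ b) (h3 : 3 ≤ Fintype.card κ) (R X J a0 T : ℕ)
    (hR : R = 2 * Fintype.card κ + 2) (hJ : 1800 ≤ J) (hX : 1 ≤ X) (h : WnK E a b (1 / X))
    (hn : 8 ≤ Fintype.card α) (hX' : 4 * (R * X) ≤ Fintype.card α) (ha0 : 1 ≤ a0)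
    (hT : T = 4 ^ J * a0) (ha : (Fintype.card α : ℝ) ^ 2 * (1 - 1 / (6 * X)) ^ a0 ≤ 1 / 200)
    (hl3 : (R * T ^ 2 * J) ^ 2 ≤ Fintype.card α) :
    ∃ S : α × α → Prop, ∑ v, nind (S v) ≤ (Fintype.card α : ℝ) ^ 2 / 20 ∧
      ∀ u v, S v → u ≠ v → (∀ g, IvK E a b g → g u = g v) → ∀ B : Finset (κ × α), lf a b u ⊆ B →
        lf a b v ⊆ B → 10 * (T * (B.card + R * T)) ≤ Fintype.card α →
        ∃ Z : Finset (κ × α), Z.card ≤ 2 * (R * T) ∧ Disjoint Z B ∧ PK E (Z ∪ lf a b u) ∧
          PK E (Z ∪ lf a b v) := by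
  have : Nonempty α := Fintype.card_pos_iff.1 (by omega)
  have hN := card_src hE hab
  have hdeg := cnt_deg hE hab
  have hl := fun u => @cnt_l κ α _ _ _ _ E _ a b u
  have hr := fun u => @cnt_r κ α _ _ _ _ E _ a b u
  have hw := wn_sum (a := a) (b := b) hE
  set n := Fintype.card α with hn'
  obtain ⟨N, hN'⟩ : ∃ N, N = (Fintype.card κ - 2) * n ^ (2 * (Fintype.card κ - 2)) := ⟨_, rfl⟩
  have N0 : (0 : ℝ) < N := by
    exact_mod_cast hN' ▸ Nat.mul_pos (by omega) (Nat.pow_pos (by omega))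
  simp only [← hN'] at hN
  simp only [hN] at hdeg hl hr
  have hn0 : (8 : ℝ) ≤ n := by exact_mod_cast hn
  have hX0 : (1 : ℝ) ≤ X := by exact_mod_cast hX
  have hcard : Real.log (Fintype.card (α × α)) = 2 * Real.log n := by
    rw [Fintype.card_prod]; push_cast; rw [Real.log_mul (by linarith) (by linarith)]; ring
  have hsq : Real.exp (Real.log n / 2) * Real.exp (Real.log n / 2) = n := by
    rw [← Real.exp_add, add_halves, Real.exp_log (by linarith)]
  have hg : ∀ w ∈ Wa E a b, Gd hE a b (rv hE a b w) ↔ Gd hE a b w := fun w hw => by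
    rw [Gd, Gd, (rv_spec hE hw).2, and_comm]
  obtain ⟨S, h1, h2⟩ := Win.wit_gap (Pm := PK E) PK.empty (fun U U' => PK.union)
    ((Wa E a b).filter (Gd hE a b)) (sr a b) (fun w => sr a b (rv hE a b w)) (lb a b) (rv hE a b)
    (lf a b) (fun w hw => by
      obtain ⟨h2, h3⟩ := mem_filter.1 hw
      exact ⟨mem_filter.2 ⟨(rv_spec hE h2).1, (hg w h2).2 h3⟩, (rv_spec hE h2).2, rfl,
        by rw [(rv_spec hE h2).2], lb_rv hE h2⟩) (r := 2 * Fintype.card κ) (fun w hw => by
      obtain ⟨h2, h3⟩ := mem_filter.1 hw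
      obtain ⟨-, h4, h5⟩ := mem_Wa.1 (rv_spec hE h2).1
      refine ⟨?_, ?_, ?_⟩
      · rw [← lb_rv hE h2, lb_lf]
        exact (PK.single h4).union (PK.single h5) (disjoint_cl.2 h3.2)
      · rw [← lb_rv hE h2, disjoint_right]
        rintro ⟨j, t⟩ h6 h7
        simp only [lb, mem_lf, sr, mem_filter, mem_univ, true_and] at h6 h7
        rcases h6 with ⟨rfl, rfl⟩ | ⟨rfl, rfl⟩ <;> rcases h7 with h7 | h7
        exacts [h7.1 rfl, h3.2 _ h7.2.symm, h3.2 _ h7.2, h7.1 rfl]
      · refine (card_le_card (subset_union_left.trans (lb_lf w).le)).trans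
          ((card_union_le _ _).trans ?_)
        rw [card_cl, card_cl, two_mul])
    (fun v => ⟨card_le_two, insert_nonempty _ _⟩) (N := 2 * N) (q := 1 / n)
    (by positivity) (by positivity) (fun u => by
      rw [filter_comm, ← hN u]
      exact mul_le_mul_of_nonneg_left (by exact_mod_cast card_filter_le _ _) (by norm_num))
    (fun u x => by
      rw [mul_one_div, le_div_iff₀ (by linarith), two_mul]
      norm_cast
      refine le_trans (Nat.mul_le_mul_right _ (card_le_card (t := ((Wa E a b).filter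
        (fun w => sr a b w = u)).filter (fun w => x ∈ lb a b w ∪ lf a b (sr a b (rv hE a b w))))
        fun w hw => ?_)) ?_
      · simp only [mem_filter] at hw ⊢
        exact ⟨⟨hw.1.1, hw.2.1⟩, hw.2.2⟩
      obtain ⟨j, t⟩ := x
      by_cases j1 : j = a
      · refine card_or _ _ _ _ (fun w _ hw => ?_) (hl u (fun w => (rv hE a b w).2.1 a = t)
          fun k g' k1 k2 => cn_mv hE hab k1 k2 u.1 (g' k) t) (hr u (fun w => w.2.2 a = t)
          fun k g k1 k2 => cn_co hE hab.symm k2 k1 hab u.2 t)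
        simpa [lb, mem_lf, sr, j1, hab, or_comm] using hw
      by_cases j2 : j = b
      · refine card_or _ _ _ _ (fun w _ hw => ?_) (hl u (fun w => w.2.1 b = t)
          fun k g' k1 k2 => cn_co hE hab k1 k2 hab.symm u.1 t)
          (hr u (fun w => (rv hE a b w).2.2 b = t)
          fun k g k1 k2 => cn_mv hE hab.symm k2 k1 u.2 (g k) t)
        simpa [lb, mem_lf, sr, j2, hab.symm] using hw
      · refine card_or _ _ _ _ (fun w _ hw => ?_) (hl u (fun w => w.2.1 j = t)
          fun k g' k1 k2 => cn_co hE hab k1 k2 j1 u.1 t) (hr u (fun w => w.2.2 j = t)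
          fun k g k1 k2 => cn_co hE hab.symm k2 k1 j2 u.2 t)
        simpa [lb, mem_lf, j1, j2] using hw)
    (IvK E a b) (fun g hg w hw => (ivk_iff hE g).1 hg w (mem_filter.1 hw).1)
    (η := 1 / (2 * X)) (by positivity) (by rw [div_le_one (by linarith)]; linarith) (fun f hf => by
      refine le_trans (le_of_eq ?_) (poinc (Wa E a b) (Gd hE a b) (sr a b) (rv hE a b)
        (fun w hw => ⟨(rv_spec hE hw).1, (rv_spec hE hw).2, (hg w hw).1⟩) N0
        (fun u => by rw [hN]) (δ := R * N / n) (η := 1 / X) (fun u => by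
          rw [le_div_iff₀ (by linarith)]
          exact_mod_cast (hdeg u).trans (Nat.mul_le_mul_right _ (by omega))) (by
          have : (4 * (R * X) : ℝ) ≤ n := by exact_mod_cast hX'
          rw [← mul_div_assoc, one_div_mul_eq_div, div_le_div_iff₀ (by linarith) (by linarith)]
          nlinarith) (fun f μ f0 f1 => h (fun r c => f (r, c)) μ
          (fun e => f0 (funext fun u => congrFun₂ e u.1 u.2)) fun r c => by
            rw [← hw f (r, c), f1, hN']
            push_cast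
            rfl) f fun g hg => hf g ((ivk_iff hE g).2 hg))
      field_simp) J a0 T (by omega) ha0 hT (by
      refine le_trans (le_of_eq ?_) ha
      rw [Fintype.card_prod, ← hn', div_div, show 2 * (X : ℝ) * 3 = 6 * X by ring]
      push_cast; ring) (lam := Real.log n / 2) (by
      have h1 : Real.exp 2 ≤ n := by
        have := Real.exp_one_lt_d9
        have h2 : Real.exp 2 = Real.exp 1 * Real.exp 1 := by rw [← Real.exp_add]; norm_num
        nlinarith [Real.exp_pos 1]
      have := (Real.le_log_iff_exp_le (by linarith)).2 h1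
      linarith) (by rw [hcard]; linarith) (by
      have h1 : ((R * T ^ 2 * J : ℝ)) ^ 2 ≤ Real.exp (Real.log n / 2) ^ 2 := by
        rw [sq (Real.exp _), hsq]; exact_mod_cast hl3
      have h3 := (pow_le_pow_iff_left₀ (by positivity) (Real.exp_pos _).le two_ne_zero).1 h1
      have h4 := (mul_le_mul_of_nonneg_left h3 (Real.exp_pos _).le).trans hsq.le
      rw [← mul_div_assoc, div_le_one (by linarith), ← hR]
      linarith)
  rw [← hR] at h2
  refine ⟨S, h1.trans ?_, fun u v a1 a2 a3 B a4 a5 a6 => h2 u v a1 a2 a3 B a4 a5 ?_⟩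
  · have hJ' : (1800 : ℝ) ≤ J := by exact_mod_cast hJ
    rw [Fintype.card_prod, ← hn', div_le_div_iff₀ (by linarith) (by norm_num)]
    push_cast
    nlinarith [sq_nonneg (n : ℝ)]
  · have : (10 * (T * (B.card + R * T)) : ℝ) ≤ n := by exact_mod_cast a6
    rw [← mul_div_assoc, div_le_iff₀ (by linarith)]
    linarith

end Pool.Agent.Lib.MP_356f68_co.Hyp
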