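import Mathlib
import Pool.Agent.Lib.MP_356f68_co.Hyp.Abs

/-! Absorbers for compatible tuples, and the gadget of the closing structure. -/

set_option autoImplicit false
set_option linter.unusedSectionVars false

namespace Pool.Agent.Lib.MP_356f68_co.Hyp

open Finset Function Pool.Agent.Lib.MP_356f68_co.Cube

variable {κ α : Type} [Fintype κ] [DecidableEq κ] [Fintype α] [DecidableEq α]
  {E : (κ → α) → Prop} [DecidablePred E] {a b k : κ}

/-- a tuple with two prescribed values -/
def u2 (a b : κ) (p : κ → α) (u : α × α) : κ → α := update (update p a u.1) b u.2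

/-- the vertices of a tuple outside two classes -/
def off (a b : κ) (p : κ → α) : Finset (κ × α) := (cl p).filter (fun x => x.1 ≠ a ∧ x.1 ≠ b)

lemma mem_off {p : κ → α} {x : κ × α} : x ∈ off a b p ↔ p x.1 = x.2 ∧ x.1 ≠ a ∧ x.1 ≠ b := by
  simp [off, mem_cl]

lemma u2_a (hab : a ≠ b) (p : κ → α) (u : α × α) : u2 a b p u a = u.1 := by
  rw [u2, update_of_ne hab, update_self]

lemma u2_b (p : κ → α) (u : α × α) : u2 a b p u b = u.2 := by rw [u2, update_self]

lemma u2_o {j : κ} (h1 : j ≠ a) (h2 : j ≠ b) (p : κ → α) (u : α × α) : u2 a b p u j = p j := by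
  rw [u2, update_of_ne h2, update_of_ne h1]

lemma u2_self (p : κ → α) : u2 a b p (p a, p b) = p := by simp [u2]

lemma u2_u2 (hab : a ≠ b) (p : κ → α) (u v : α × α) : u2 a b (u2 a b p u) v = u2 a b p v := by
  simp only [u2]
  rw [update_comm hab.symm, update_idem, update_idem]

lemma cl_u2 (hab : a ≠ b) (p : κ → α) (u : α × α) :
    cl (u2 a b p u) = off a b p ∪ lf a b u := by
  ext ⟨j, t⟩
  simp only [mem_cl, mem_union, mem_off, mem_lf]
  by_cases j1 : j = a
  · simp [j1, u2_a hab, hab]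
  by_cases j2 : j = b
  · simp [j2, u2_b, hab.symm]
  · simp [j1, j2, u2_o j1 j2]

lemma off_lf (p : κ → α) (u : α × α) : Disjoint (off a b p) (lf a b u) :=
  disjoint_left.2 fun _ h h' => (mem_lf.1 h').elim (fun e => (mem_off.1 h).2.1 e.1)
    fun e => (mem_off.1 h).2.2 e.1

lemma disj_u2 (hab : a ≠ b) {p q : κ → α} {u v : α × α} (h : ∀ j, j ≠ a → j ≠ b → p j ≠ q j)
    (h1 : u.1 ≠ v.1) (h2 : u.2 ≠ v.2) : Disjoint (cl (u2 a b p u)) (cl (u2 a b q v)) := by
  refine disjoint_cl.2 fun j => ?_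
  by_cases j1 : j = a
  · rwa [j1, u2_a hab, u2_a hab]
  by_cases j2 : j = b
  · rwa [j2, u2_b, u2_b]
  · rw [u2_o j1 j2, u2_o j1 j2]
    exact h j j1 j2

lemma sum_u2 (hab : a ≠ b) {A : Type} [AddCommGroup A] (lam : κ → α → A) (p : κ → α)
    (u : α × α) : ∑ j, lam j (u2 a b p u j)
      = ∑ j, lam j (p j) - lam a (p a) - lam b (p b) + lam a u.1 + lam b u.2 := by
  rw [u2, sum_up, sum_up, update_of_ne hab.symm]
  abel

/-- absorbers for the good tuples allowed by a labelling -/
def Vab {A : Type} [AddCommGroup A] (E : (κ → α) → Prop) (a b : κ) (lam : κ → α → A)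
    (Good : (κ → α) → Prop) (w β : ℕ) : Prop :=
  ∀ p u, Good p → ∑ j, lam j (u2 a b p u j) = 0 → ∀ B : Finset (κ × α), cl (u2 a b p u) ⊆ B →
    B.card ≤ β → ∃ W : Finset (κ × α), W.card ≤ w ∧ Disjoint W B ∧ PK E W ∧
      PK E (W ∪ cl (u2 a b p u))

theorem exists_vab (hE : LK E) (hab : a ≠ b) (hak : a ≠ k) (hbk : b ≠ k) {A : Type}
    [AddCommGroup A] (lam : κ → α → A) (h0 : ∀ g, E g → ∑ j, lam j (g j) = 0)
    (hσ : ∀ u v : α × α, lam a u.1 + lam b u.2 = lam a v.1 + lam b v.2 →
      ∀ f, IvK E a b f → f u = f v) (R X J a0 T β : ℕ)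
    (hR : R = 2 * Fintype.card κ + 2) (hJ : 1800 ≤ J) (hX : 1 ≤ X) (h : WnK E a b (1 / X))
    (hn : 8 ≤ Fintype.card α) (hX' : 4 * (R * X) ≤ Fintype.card α) (ha0 : 1 ≤ a0)
    (hT : T = 4 ^ J * a0) (ha : (Fintype.card α : ℝ) ^ 2 * (1 - 1 / (6 * X)) ^ a0 ≤ 1 / 200)
    (hl3 : (R * T ^ 2 * J) ^ 2 ≤ Fintype.card α)
    (hβ : 10 * (T * (β + 2 + R * T)) ≤ Fintype.card α) :
    ∃ Good : (κ → α) → Prop, (∀ w, 10 * ct univ (fun t => ¬ Good (update w k t))
      ≤ Fintype.card α) ∧ (∀ p u, Good p → Good (u2 a b p u)) ∧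
      Vab E a b lam Good (2 * (R * T) + 2) β := by
  classical
  have h3 : 3 ≤ Fintype.card κ := by
    rw [← card_eq_three.2 ⟨a, b, k, hab, hak, hbk, rfl⟩]
    exact card_le_univ _
  obtain ⟨S, h1, h2⟩ := exch hE hab h3 R X J a0 T hR hJ hX h hn hX' ha0 hT ha hl3
  set n := Fintype.card α with hn'
  set nb : (κ → α) → Finset α := fun p =>
    univ.filter (fun r => ¬ S (r, sol hE b (update p a r))) with hnb
  refine ⟨fun p => 2 * (nb p).card < n, fun w => ?_, fun p u hp => ?_,
    fun p u hp e B b1 b2 => ?_⟩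
  · have g1 : ∑ v, nind (S v) = ∑ t, ((nb (update w k t)).card : ℝ) := by
      simp only [hnb, card_filter, Nat.cast_sum]
      rw [Fintype.sum_prod_type]
      refine Eq.trans (sum_congr rfl fun r _ => ?_) sum_comm
      rw [← (Finite.injective_iff_bijective.1 (sol_inj hE hbk.symm (update w a r))).sum_comp
        fun c => nind (S (r, c))]
      refine sum_congr rfl fun t _ => ?_
      rw [update_comm hak]
      by_cases g : S (r, sol hE b (update (update w k t) a r))
      · rw [nind_pos g]; simp [g]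
      · rw [nind_neg g]; simp [g]
    have g2 : 20 * ∑ t, (nb (update w k t)).card ≤ n ^ 2 := by
      rw [g1, le_div_iff₀ (by norm_num), mul_comm] at h1
      exact_mod_cast h1
    obtain ⟨F, f1, f2⟩ : ∃ F : Finset α, ct univ (fun t => ¬ 2 * (nb (update w k t)).card < n)
        = F.card ∧ ∀ t ∈ F, n ≤ 2 * (nb (update w k t)).card :=
      ⟨_, rfl, fun t ht => by simpa using ht⟩
    have g3 := card_nsmul_le_sum F (fun t => 2 * (nb (update w k t)).card) n f2
    have g4 : ∑ t ∈ F, (nb (update w k t)).card ≤ ∑ t, (nb (update w k t)).card :=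
      sum_le_sum_of_subset (subset_univ _)
    rw [← mul_sum, smul_eq_mul] at g3
    rw [f1]
    refine Nat.le_of_mul_le_mul_right (c := n) ?_ (by omega)
    nlinarith
  · have : nb (u2 a b p u) = nb p := by
      simp only [hnb, u2, update_comm hab.symm, update_idem, sol_up]
    simpa only [this] using hp
  by_cases g0 : E (u2 a b p u)
  · exact ⟨∅, by simp, by simp, PK.empty, by simpa using PK.single g0⟩
  have hT1 : 1 ≤ T := by rw [hT]; exact Nat.mul_pos (by positivity) ha0
  have g1 : β + 2 + R * T ≤ T * (β + 2 + R * T) := Nat.le_mul_of_pos_left _ hT1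
  have d1 : (B.image Prod.snd).card ≤ B.card := card_image_le
  obtain ⟨r, r1, r2, r3, -⟩ := Win.avoid4 injective_id (sol_inj hE hab p) injective_id (nb p)
    (B.image Prod.snd) (B.image Prod.snd) ∅ (by rw [card_empty]; omega)
  set v : α × α := (r, sol hE b (update p a r)) with hv
  have g2 : E (u2 a b p v) := sol_spec hE b _
  have g3 : Disjoint (lf a b v) B := disjoint_left.2 fun x hx hB => by
    rcases mem_lf.1 hx with e | e
    exacts [r2 (mem_image.2 ⟨x, hB, e.2.symm⟩), r3 (mem_image.2 ⟨x, hB, e.2.symm⟩)]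
  have g5 := h0 _ g2
  rw [sum_u2 hab] at e g5
  rw [cl_u2 hab] at b1 ⊢
  have g4 : lf a b u ⊆ B := subset_union_right.trans b1
  obtain ⟨Z, z1, z2, z3, z4⟩ := h2 u v (by simpa [hnb] using r1) (fun e' => g0 (e' ▸ g2))
    (hσ _ _ (by linear_combination (norm := abel) e - g5)) (B ∪ lf a b v)
    (g4.trans subset_union_left) subset_union_right (by
      have := (card_union_le B (lf a b v)).trans (Nat.add_le_add b2 card_le_two)
      exact le_trans (by gcongr) hβ)
  rw [disjoint_union_right] at z2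
  refine ⟨Z ∪ lf a b v, (card_union_le _ _).trans (Nat.add_le_add z1 card_le_two),
    disjoint_union_left.2 ⟨z2.1, g3⟩, z4, ?_⟩
  have g6 := z3.union (PK.single g2) (by
    rw [cl_u2 hab]
    exact disjoint_union_left.2 ⟨disjoint_union_right.2
      ⟨z2.1.mono_right (subset_union_left.trans b1), z2.2⟩,
      disjoint_union_right.2 ⟨(off_lf p u).symm, (g3.mono_right g4).symm⟩⟩)
  rw [cl_u2 hab] at g6
  convert g6 using 1
  ext x
  simp only [mem_union]
  tauto

lemma ct_pre {f : α → α} (hf : Injective f) (D : Finset α) :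
    ct univ (fun x => f x ∈ D) ≤ D.card := by
  unfold ct
  convert Win.pre_card hf D

lemma ct_comp {f : α → α} (hf : Injective f) (Q : α → Prop) :
    ct univ (fun x => Q (f x)) ≤ ct univ Q := by
  unfold ct
  exact card_le_card_of_injOn f (fun x hx => by simpa using hx) hf.injOn

lemma gad (hE : LK E) (hab : a ≠ b) (hak : a ≠ k) (hbk : b ≠ k) {Good : (κ → α) → Prop}
    (h1 : ∀ w, 10 * ct univ (fun t => ¬ Good (update w k t)) ≤ Fintype.card α)
    (h2 : ∀ p u, Good p → Good (u2 a b p u)) (p : κ → α) (r0 : α) (B : Finset (κ × α))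
    (h : 10 * B.card + 10 ≤ Fintype.card α) :
    ∃ g g' : κ → α, Disjoint (cl g ∪ cl g') B ∧ E g ∧ E g' ∧ (∀ j, g j ≠ g' j) ∧
      E (u2 a b p (g a, g' b)) ∧ E (u2 a b g' (r0, g b)) ∧ Good g ∧ Good g' := by
  set D := B.image Prod.snd
  have d1 : D.card ≤ B.card := card_image_le
  have d2 : ∀ g : κ → α, (∀ j, g j ∉ D) → Disjoint (cl g) B := fun g hg =>
    disjoint_left.2 fun x hx hB => hg x.1 (mem_image.2 ⟨x, hB, (mem_cl.1 hx).symm⟩)
  obtain ⟨x1, -, a1⟩ := exists_mem_notMem_of_card_lt_card (s := D) (t := univ)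
    (by rw [card_univ]; omega)
  obtain ⟨x2, -, a2⟩ := exists_mem_notMem_of_card_lt_card (s := insert x1 D) (t := univ)
    (by have := card_insert_le x1 D; rw [card_univ]; omega)
  rw [mem_insert, not_or] at a2
  let c : α → α := fun x => sol hE b (update p a x)
  let y : α → α := fun t => sol hE b (update (update (fun _ => x2) a r0) k t)
  let r : α → α → α := fun x t => sol hE a (update (update (fun _ => x2) b (c x)) k t)
  let s : α → α → α := fun x t => sol hE k (u2 a b (fun _ => x1) (x, y t))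
  have i1 : Injective c := sol_inj hE hab p
  have i2 : Injective y := sol_inj hE hbk.symm _
  have i3 : ∀ x, Injective (r x) := fun x => sol_inj hE hak.symm _
  have i4 : ∀ x, Injective (s x) := fun x =>
    (sol_inj hE hbk (update (fun _ => x1) a x)).comp i2
  have i5 : ∀ t, Injective (fun x => s x t) := fun t => by
    simp only [s, u2, update_comm hab]
    exact sol_inj hE hak _
  obtain ⟨x, -, t, -, b1, b2⟩ := two_dim (univ : Finset α)
    (fun x t => (t ∈ D ∨ ¬ Good (update (fun _ => x2) k t)) ∨ (y t ∈ insert (c x) D ∨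
      r x t ∈ insert x D) ∨ (s x t ∈ D ∨ ¬ Good (update (fun _ => x1) k (s x t))))
    (fun x t => x ∈ D ∨ c x ∈ D ∨ s x t ∈ ({t} : Finset α)) _ _
    (fun x _ => filter_or_le _ _ _ (filter_or_le _ _ _ (ct_pre injective_id D) le_rfl)
      (filter_or_le _ _ _ (filter_or_le _ _ _ ((ct_pre i2 _).trans (card_insert_le _ _))
        ((ct_pre (i3 x) _).trans (card_insert_le _ _))) (filter_or_le _ _ _ (ct_pre (i4 x) D)
        (ct_comp (i4 x) fun t => ¬ Good (update (fun _ => x1) k t)))))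
    (fun t _ => filter_or_le _ _ _ (ct_pre injective_id D) (filter_or_le _ _ _ (ct_pre i1 D)
      ((ct_pre (i5 t) _).trans (card_singleton t).le))) (by
      have := h1 (fun _ => x1)
      have := h1 (fun _ => x2)
      rw [card_univ]
      omega)
  simp only [not_or, not_not, mem_insert, mem_singleton] at b1 b2
  obtain ⟨⟨b3, b4⟩, ⟨⟨b5, b6⟩, b7, b8⟩, b9, b10⟩ := b1
  have q : ∀ (z w : α) (u : α × α), z ∉ D → w ∉ D → u.1 ∉ D → u.2 ∉ D →
      ∀ j, u2 a b (update (fun _ => z) k w) u j ∉ D := fun z w u e1 e2 e3 e4 j => by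
    simp only [u2, update_apply]
    split_ifs <;> assumption
  refine ⟨u2 a b (update (fun _ => x1) k (s x t)) (x, y t),
    u2 a b (update (fun _ => x2) k t) (r x t, c x), disjoint_union_left.2
      ⟨d2 _ (q _ _ _ a1 b9 b2.1 b6), d2 _ (q _ _ _ a2.2 b3 b8 b2.2.1)⟩, ?_, ?_,
    disjoint_cl.1 (disj_u2 hab (fun j _ _ => ?_) (Ne.symm b7) b5), ?_, ?_, h2 _ _ b10, h2 _ _ b4⟩
  · rw [u2, update_comm hak.symm, update_comm hbk.symm]
    exact sol_spec hE k _
  · rw [u2, update_comm hab, update_comm hbk.symm]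
    exact sol_spec hE a _
  · simp only [update_apply]
    split_ifs
    exacts [b2.2.2, Ne.symm a2.1]
  · rw [u2_a hab, u2_b]
    exact sol_spec hE b _
  · rw [u2_b, u2_u2 hab, u2, update_comm hak.symm]
    exact sol_spec hE b _

end Pool.Agent.Lib.MP_356f68_co.Hyp
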