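import Mathlib
import Pool.Agent.Lib.MP_356f68_co.Hyp.Vab

/-! A small set that absorbs a fixed line with any compatible pair of a reservoir. -/

set_option autoImplicit false
set_option linter.unusedSectionVars false

namespace Pool.Agent.Lib.MP_356f68_co.Hyp

open Finset Function Pool.Agent.Lib.MP_356f68_co.Cube

variable {κ α : Type} [Fintype κ] [DecidableEq κ] [Fintype α] [DecidableEq α]
  {E : (κ → α) → Prop} [DecidablePred E] {a b k : κ}

theorem closer (hE : LK E) (hab : a ≠ b) (hak : a ≠ k) (hbk : b ≠ k) {A : Type} [AddCommGroup A]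
    (lam : κ → α → A) (h : ∀ g, E g → ∑ j, lam j (g j) = 0) {Good : (κ → α) → Prop} {w β K : ℕ}
    (hK : K = 2 * Fintype.card κ) (hV : Vab E a b lam Good w β)
    (hB : ∀ w, 10 * ct univ (fun t => ¬ Good (update w k t)) ≤ Fintype.card α)
    (hG : ∀ p u, Good p → Good (u2 a b p u)) (p : κ → α) (R : Finset (κ × α))
    (hs : off a b p ⊆ R) (h1 : R.card + (K + w) * R.card ≤ β)
    (h2 : 10 * β + 10 ≤ Fintype.card α) :
    ∃ Cl : Finset (κ × α), Cl.card ≤ (K + w) * R.card ∧ Disjoint Cl R ∧ PK E Cl ∧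
      ∀ u, lf a b u ⊆ R → ∑ j, lam j (u2 a b p u j) = 0 → PK E (Cl ∪ cl (u2 a b p u)) := by
  classical
  have : Nonempty (κ → α) := ⟨p⟩
  set I := (R.filter (fun v => v.1 = a)).image (fun v => lam a v.2) with hI
  have i1 : I.card ≤ R.card := card_image_le.trans (card_filter_le _ _)
  have i0 : K * I.card ≤ K * R.card := Nat.mul_le_mul_left _ i1
  rw [add_mul] at h1 ⊢
  obtain ⟨V, v1, v2⟩ := greedy I (fun x V => ∃ g g' : κ → α, V = cl g ∪ cl g' ∧ E g ∧
      E g' ∧ (∀ j, g j ≠ g' j) ∧ E (u2 a b p (g a, g' b)) ∧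
      (∀ r, lam a r = x → ∑ j, lam j (u2 a b g' (r, g b) j) = 0) ∧ Good g ∧ Good g') R K β
    (fun x hx B _ b2 => by
      obtain ⟨⟨j, r0⟩, -, rfl⟩ := mem_image.1 hx
      obtain ⟨g, g', g1, g2, g3, g4, g5, g6, g7⟩ := gad hE hab hak hbk hB hG p r0 B (by omega)
      refine ⟨_, (card_union_le _ _).trans (by rw [card_cl, card_cl, hK, two_mul]), g1, g, g', rfl,
        g2, g3, g4, g5, fun r hr => ?_, g7⟩
      rw [← h _ g6, sum_u2 hab, sum_u2 hab, hr]) (by omega)
  choose! g g' v3 v4 v5 v6 v7 v8 v9 v10 using fun x hx => (v1 x hx).2.2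
  have p1 : ∀ x ∈ I, PK E (V x) := fun x hx => v3 x hx ▸
    (PK.single (v4 x hx)).union (PK.single (v5 x hx)) (disjoint_cl.2 (v6 x hx))
  have i2 := card_biUnion_le_card_mul I V K fun x hx => (v1 x hx).1
  have i3 : ∀ x ∈ I, cl (g x) ⊆ R ∪ I.biUnion V ∧ cl (g' x) ⊆ R ∪ I.biUnion V := fun x hx =>
    union_subset_iff.1 (v3 x hx ▸ (subset_biUnion_of_mem V hx).trans subset_union_right)
  have i4 : ∀ {q : κ → α} {u : α × α} {S : Finset (κ × α)}, off a b q ⊆ S → (a, u.1) ∈ S →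
      (b, u.2) ∈ S → cl (u2 a b q u) ⊆ S := fun e1 e2 e3 => by
    rw [cl_u2 hab]
    exact union_subset e1 (insert_subset e2 (singleton_subset_iff.2 e3))
  set ω := ∑ j, lam j (p j) - lam a (p a) - lam b (p b) with hω
  obtain ⟨W, w1, w2⟩ := greedy R (fun v W => PK E W ∧
      (v.1 = a → PK E (W ∪ cl (u2 a b (g' (lam a v.2)) (v.2, g (lam a v.2) b)))) ∧
      (v.1 = b → ∀ x ∈ I, x = -ω - lam b v.2 → PK E (W ∪ cl (u2 a b (g x) (g' x a, v.2)))))
      (R ∪ I.biUnion V) w β (fun ⟨j, t⟩ hv B b1 b2 => by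
    have b3 : (j, t) ∈ B := b1 (mem_union_left _ hv)
    by_cases c1 : j = a
    · subst c1
      have a1 : lam j t ∈ I := mem_image.2 ⟨_, mem_filter.2 ⟨hv, rfl⟩, rfl⟩
      obtain ⟨W, c2, c3, c4, c5⟩ := hV _ (t, g (lam j t) b) (v10 _ a1) (v8 _ a1 t rfl) B
        (i4 (((filter_subset _ _).trans (i3 _ a1).2).trans b1) b3
          (b1 ((i3 _ a1).1 (mem_cl.2 rfl)))) b2
      exact ⟨W, c2, c3, c4, fun _ => c5, fun e => absurd e hab⟩
    by_cases c2 : j = b ∧ -ω - lam b t ∈ I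
    · obtain ⟨rfl, a1⟩ := c2
      obtain ⟨x, hx⟩ : ∃ x, x = -ω - lam j t := ⟨_, rfl⟩
      rw [← hx] at a1
      obtain ⟨W, c2, c3, c4, c5⟩ := hV (g x) (g' x a, t) (v9 _ a1) (by
          obtain ⟨⟨_, r⟩, -, e0⟩ := mem_image.1 a1
          have e3 := h _ (v7 _ a1)
          have e4 := v8 _ a1 r e0
          rw [sum_u2 hab] at e3 e4 ⊢
          simp only [h _ (v4 _ a1), h _ (v5 _ a1), ← hω] at e0 e3 e4 ⊢
          linear_combination (norm := abel) -e3 - e4 + e0 + hx) B
        (i4 (((filter_subset _ _).trans (i3 _ a1).1).trans b1)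
          (b1 ((i3 _ a1).2 (mem_cl.2 rfl))) b3) b2
      exact ⟨W, c2, c3, c4, fun e => absurd e c1, fun _ y _ e => (e.trans hx.symm) ▸ c5⟩
    · exact ⟨∅, by simp, by simp, PK.empty, fun e => absurd e c1,
        fun e x hx e' => absurd ⟨e, e' ▸ hx⟩ c2⟩)
    (by have := card_union_le R (I.biUnion V); rw [mul_comm] at i2; omega)
  have w3 : Disjoint (R.biUnion W) (R ∪ I.biUnion V) :=
    (disjoint_biUnion_left _ _ _).2 fun v hv => (w1 v hv).2.1
  have w4 : Disjoint (I.biUnion V) R := (disjoint_biUnion_left _ _ _).2 fun x hx => (v1 x hx).2.1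
  refine ⟨I.biUnion V ∪ R.biUnion W, ?_, disjoint_union_left.2
    ⟨w4, w3.mono_right subset_union_left⟩, (PK.biUnion I V p1 v2).union
    (PK.biUnion R W (fun v hv => (w1 v hv).2.2.1) w2) (w3.mono_right subset_union_right).symm,
    fun ⟨r, c⟩ hu e => ?_⟩
  · have := card_union_le (I.biUnion V) (R.biUnion W)
    have := card_biUnion_le_card_mul R W w fun v hv => (w1 v hv).1
    rw [mul_comm w]
    rw [mul_comm] at i2
    omega
  have hr : (a, r) ∈ R := hu (mem_insert_self _ _)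
  have hc : (b, c) ∈ R := hu (mem_insert_of_mem (mem_singleton_self _))
  have a1 : lam a r ∈ I := mem_image.2 ⟨_, mem_filter.2 ⟨hr, rfl⟩, rfl⟩
  have a2 : lam a r = -ω - lam b c := by
    rw [sum_u2 hab, ← hω] at e
    linear_combination (norm := abel) e
  set x := lam a r
  have n1 : ∀ j t, (j, t) ∈ R → g x j ≠ t ∧ g' x j ≠ t := fun j t ht =>
    ⟨fun e => disjoint_left.1 (v1 x a1).2.1 (v3 x a1 ▸ mem_union_left _ (mem_cl.2 e)) ht,
      fun e => disjoint_left.1 (v1 x a1).2.1 (v3 x a1 ▸ mem_union_right _ (mem_cl.2 e)) ht⟩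
  have n2 : ∀ j, j ≠ a → j ≠ b → (j, p j) ∈ R := fun j j1 j2 => hs (mem_off.2 ⟨rfl, j1, j2⟩)
  have t0 : cl (u2 a b p (r, c)) ⊆ R := i4 hs hr hc
  have t1 : V x ∪ cl (u2 a b p (r, c)) = cl (u2 a b p (g x a, g' x b)) ∪
      (cl (u2 a b (g' x) (r, g x b)) ∪ cl (u2 a b (g x) (g' x a, c))) := by
    rw [v3 x a1]
    conv_lhs => rw [← u2_self (a := a) (b := b) (g x), ← u2_self (a := a) (b := b) (g' x)]
    simp only [cl_u2 hab, lf, insert_eq]
    ac_rfl
  have t2 : V x ∪ cl (u2 a b p (r, c)) ⊆ R ∪ I.biUnion V :=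
    union_subset ((subset_biUnion_of_mem V a1).trans subset_union_right)
      (t0.trans subset_union_left)
  have t3 : Disjoint (cl (u2 a b (g' x) (r, g x b))) (cl (u2 a b (g x) (g' x a, c))) :=
    disj_u2 hab (fun j _ _ => (v6 x a1 j).symm) (n1 a r hr).2.symm (n1 b c hc).1
  have t4 : Disjoint (cl (u2 a b p (g x a, g' x b)))
      (cl (u2 a b (g' x) (r, g x b)) ∪ cl (u2 a b (g x) (g' x a, c))) :=
    disjoint_union_right.2 ⟨disj_u2 hab (fun j j1 j2 => (n1 j _ (n2 j j1 j2)).2.symm)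
      (n1 a r hr).1 (v6 x a1 b).symm, disj_u2 hab (fun j j1 j2 => (n1 j _ (n2 j j1 j2)).1.symm)
      (v6 x a1 a) (n1 b c hc).2⟩
  rw [t1, union_subset_iff, union_subset_iff] at t2
  have ne : ((a, r) : κ × α) ≠ (b, c) := fun e => hab (congrArg Prod.fst e)
  let Y : κ × α → Finset (κ × α) := fun v => if v = (a, r) then cl (u2 a b (g' x) (r, g x b)) else
    if v = (b, c) then cl (u2 a b (g x) (g' x a, c)) else ∅
  have y1 : ∀ v, Y v ⊆ R ∪ I.biUnion V := fun v => by
    simp only [Y]; split_ifs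
    exacts [t2.2.1, t2.2.2, empty_subset _]
  have y2 : R.biUnion Y = cl (u2 a b (g' x) (r, g x b)) ∪ cl (u2 a b (g x) (g' x a, c)) := by
    refine Subset.antisymm (biUnion_subset.2 fun v _ => ?_) (union_subset ?_ ?_)
    · simp only [Y]; split_ifs
      exacts [subset_union_left, subset_union_right, empty_subset _]
    · simpa [Y] using subset_biUnion_of_mem Y hr
    · simpa [Y, ne.symm] using subset_biUnion_of_mem Y hc
  have y3 := PK.biUnion (E := E) R (fun v => W v ∪ Y v) (fun v hv => by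
      simp only [Y]; split_ifs with e1 e2
      · subst e1; exact (w1 _ hv).2.2.2.1 rfl
      · subst e2; exact (w1 _ hv).2.2.2.2 rfl x a1 a2
      · simpa using (w1 v hv).2.2.1) (fun v hv v' hv' hne => by
      refine disjoint_union_left.2 ⟨disjoint_union_right.2 ⟨w2 v hv v' hv' hne,
        (w1 v hv).2.1.mono_right (y1 v')⟩, disjoint_union_right.2
        ⟨((w1 v' hv').2.1.mono_right (y1 v)).symm, ?_⟩⟩
      simp only [Y]; split_ifs with e1 e2 e3 e4 e5 e6 <;>
        first | exact t3 | exact t3.symm | exact disjoint_empty_left _ |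
          exact disjoint_empty_right _ | exact absurd (by simp [*]) hne)
  rw [biUnion_union, y2] at y3
  have y4 := (PK.single (v7 x a1)).union y3
    (disjoint_union_right.2 ⟨(w3.mono_right t2.1).symm, t4⟩)
  rw [union_left_comm, ← t1] at y4
  have y5 := (PK.biUnion (I.erase x) V (fun y hy => p1 y (mem_of_mem_erase hy))
    fun y hy y' hy' => v2 y (mem_of_mem_erase hy) y' (mem_of_mem_erase hy')).union y4 (by
      refine (disjoint_biUnion_left _ _ _).2 fun y hy => ?_
      have := mem_erase.1 hy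
      exact disjoint_union_right.2 ⟨(w3.mono_right ((subset_biUnion_of_mem V this.2).trans
        subset_union_right)).symm, disjoint_union_right.2
        ⟨v2 y this.2 x a1 this.1, (v1 y this.2).2.1.mono_right t0⟩⟩)
  convert y5 using 1
  conv_lhs => rw [← insert_erase a1, biUnion_insert]
  ac_rfl

end Pool.Agent.Lib.MP_356f68_co.Hyp
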