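import Mathlib
import Pool.Agent.Lib.MP_356f68_co.Gap.Res

/-! Merging steps whose uncovered block lies in the reservoir. -/

set_option autoImplicit false
set_option linter.unusedSectionVars false
set_option linter.unusedSimpArgs false

namespace Pool.Agent.Lib.MP_356f68_co.Cube

open Finset

variable {α : Type} [Fintype α] [DecidableEq α] {ι : Type} [DecidableEq ι]

/-- as `Cf`, with the uncovered block inside the tuples of `K` -/
def Cg (E : (Fin 5 → α) → Prop) (T : ι → Fin 5 → α) (U : Finset (Col α)) (K : Finset ι)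
    (i j : ℕ) : Prop :=
  ∃ A ⊆ K, ∃ B ⊆ K, A.card = i ∧ B.card = j ∧ ∃ v : α × α, cv v ⊆ CC T K ∧
    cv v ⊆ U ∪ (CP T A ∪ CQ T B) ∧ PM E ((U ∪ (CP T A ∪ CQ T B)) \ cv v)

variable {E : (Fin 5 → α) → Prop} {T : ι → Fin 5 → α}

lemma Cg.cf {U : Finset (Col α)} {K : Finset ι} {i j : ℕ} (h : Cg E T U K i j) :
    Cf E T U K i j := by
  obtain ⟨A, hA, B, hB, h1, h2, v, -, h3⟩ := h
  exact ⟨A, hA, B, hB, h1, h2, v, h3⟩

lemma Cf.compg (hT : ∀ j, Function.Injective (fun a => T a j)) {U X : Finset (Col α)}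
    {K : Finset ι} {i j i' j' : ℕ} (h : Cf E T U K i j) (hX : Disjoint (U ∪ CC T K) X)
    (P : Finset ι → Prop)
    (h' : ∀ v, cv v ⊆ U ∪ CC T K → ∃ K', P K' ∧ Disjoint K K' ∧ Disjoint U (CC T K') ∧
      Cg E T (cv v ∪ X) K' i' j') :
    ∃ K', P K' ∧ Cg E T (U ∪ X) (K ∪ K') (i + i') (j + j') := by
  obtain ⟨A, hA, B, hB, rfl, rfl, v, h3, h4⟩ := h
  have h5 : U ∪ (CP T A ∪ CQ T B) ⊆ U ∪ CC T K := union_subset_union_right (sub_CC hA hB)
  obtain ⟨K', g0, g1, g2, A1, hA1, B1, hB1, rfl, rfl, v1, g7, g4, g5⟩ := h' v (h3.trans h5)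
  rw [union_assoc] at g4 g5
  have g6 := glue (disjoint_union_right.2 ⟨hX.mono_left h5, disjoint_union_left.2
    ⟨g2.mono_right (sub_CC hA1 hB1),
      (disj_CC hT g1).mono (sub_CC hA hB) (sub_CC hA1 hB1)⟩⟩) h3 g4 h4 g5
  refine ⟨K', g0, A ∪ A1, union_subset_union hA hA1, B ∪ B1, union_subset_union hB hB1,
    card_union_of_disjoint (g1.mono hA hA1), card_union_of_disjoint (g1.mono hB hB1), v1,
    g7.trans (CC_mono subset_union_right), ?_⟩
  have e2 : U ∪ X ∪ (CP T (A ∪ A1) ∪ CQ T (B ∪ B1)) = U ∪ (CP T A ∪ CQ T B) ∪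
      (X ∪ (CP T A1 ∪ CQ T B1)) := by
    ext b
    simp only [CP, CQ, union_biUnion, mem_union]
    tauto
  rw [e2]
  exact g6

lemma red_coreg (hT : ∀ j, Function.Injective (fun a => T a j)) {z1 z2 s1 s2 : α} {D : Finset ι}
    (hz : z1 ≠ z2) (hs : s1 ≠ s2)
    (hD : ∀ a ∈ D, (T a 3 ≠ z1 ∧ T a 3 ≠ z2) ∧ T a 4 ≠ s1 ∧ T a 4 ≠ s2)
    {a1 a2 a3 a4 c b1 b2 : ι} (hc : c ∈ D) (hb1 : b1 ∈ D) (hb2 : b2 ∈ D)
    (h12 : a1 ≠ a2) (h13 : a1 ≠ a3) (h14 : a1 ≠ a4) (h23 : a2 ≠ a3) (h24 : a2 ≠ a4)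
    (h34 : a3 ≠ a4) (g1 : c ≠ b1) (g2 : c ≠ b2) (g3 : b1 ≠ b2) {z z' : α}
    (hzz : (z = T b1 3 ∧ z' = T b2 3) ∨ (z = T b2 3 ∧ z' = T b1 3))
    (e1 : E (mk (T a4 0, T a1 1, T a4 2) (z1, T b1 4)))
    (e2 : E (mk (T a2 0, T a4 1, T a2 2) (z2, T c 4)))
    (e3 : E (mk (T a1 0, T a3 1, T a1 2) (T c 3, s1)))
    (e4 : E (mk (T a3 0, T a2 1, T a3 2) (z, s2))) :
    Cg E T (cv (z1, s1) ∪ cv (z2, s2)) {a1, a2, a3, a4, c, b1, b2} 4 3 := by
  have hT' : ∀ j x y, T x j = T y j ↔ x = y := fun j x y => (hT j).eq_iff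
  have k1 := fun a ha => (hD a ha).1.1
  have k2 := fun a ha => (hD a ha).1.2
  have k3 := fun a ha => (hD a ha).2.1
  have k4 := fun a ha => (hD a ha).2.2
  have k5 := fun a ha => (hD a ha).1.1.symm
  have k6 := fun a ha => (hD a ha).1.2.symm
  have k7 := fun a ha => (hD a ha).2.1.symm
  have k8 := fun a ha => (hD a ha).2.2.symm
  refine ⟨{a1, a2, a3, a4}, by intro x; simp; tauto, {c, b1, b2}, by intro x; simp; tauto,
    by simp [card_insert_of_notMem, h12, h13, h14, h23, h24, h34],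
    card_eq_three.2 ⟨c, b1, b2, g1, g2, g3, rfl⟩, (z', T b2 4), ?_, ?_⟩
  · intro x hx
    rw [mem_cv] at hx
    rw [mem_CC]
    rcases hx with ⟨h, h'⟩ | ⟨h, h'⟩ <;> rw [h, ← h']
    · rcases hzz with ⟨-, rfl⟩ | ⟨-, rfl⟩
      exacts [⟨b2, by simp, rfl⟩, ⟨b1, by simp, rfl⟩]
    · exact ⟨b2, by simp, rfl⟩
  have e : cv (z1, s1) ∪ cv (z2, s2) ∪ (CP T {a1, a2, a3, a4} ∪ CQ T {c, b1, b2})
      = cv (z', T b2 4) ∪ (col (mk (T a4 0, T a1 1, T a4 2) (z1, T b1 4)) ∪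
        (col (mk (T a2 0, T a4 1, T a2 2) (z2, T c 4)) ∪
        (col (mk (T a1 0, T a3 1, T a1 2) (T c 3, s1)) ∪
          col (mk (T a3 0, T a2 1, T a3 2) (z, s2))))) := by
    ext ⟨j, x⟩
    simp only [mem_union, mem_col, mem_CP, mem_CQ, mem_cv]
    rcases hzz with ⟨rfl, rfl⟩ | ⟨rfl, rfl⟩ <;> fin_cases j <;> simp [mk] <;> tauto
  rw [e, union_sdiff_cancel_left]
  · refine ⟨subset_union_left, (PM.single e1).union ((PM.single e2).union
      ((PM.single e3).union (PM.single e4) ?_) ?_) ?_⟩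
    all_goals
      simp only [disjoint_union_right, disjoint_col, Fin.forall_fin_succ]
      rcases hzz with ⟨rfl, rfl⟩ | ⟨rfl, rfl⟩ <;>
      simp [mk, hT', k1, k2, k3, k4, k5, k6, k7, k8, hz, hs, hz.symm, hs.symm, hc, hb1, hb2,
        h12, h13, h14, h23, h24, h34, h12.symm, h13.symm, h14.symm, h23.symm, h24.symm, h34.symm,
        g1, g2, g3, g1.symm, g2.symm, g3.symm]
  · rw [disjoint_left]
    rintro ⟨j, x⟩ h1 h2
    simp only [mem_col, mem_cv, mem_union] at h1 h2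
    rcases hzz with ⟨rfl, rfl⟩ | ⟨rfl, rfl⟩ <;> rcases h1 with ⟨rfl, rfl⟩ | ⟨rfl, rfl⟩ <;>
      simp [mk, hT', k1, k2, k3, k4, k5, k6, k7, k8, hc, hb1, hb2,
        g1, g2, g3, g1.symm, g2.symm, g3.symm] at h2

/-- two uncovered blocks are replaced by one -/
theorem redg (hE : Lat E) (hT : ∀ j, Function.Injective (fun a => T a j)) {z1 z2 s1 s2 : α}
    {D : Finset ι} (hz : z1 ≠ z2) (hs : s1 ≠ s2)
    (hD : ∀ a ∈ D, (T a 3 ≠ z1 ∧ T a 3 ≠ z2) ∧ T a 4 ≠ s1 ∧ T a 4 ≠ s2)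
    (hc : 6 * Fintype.card α + 13 < 7 * D.card) :
    ∃ K ⊆ D, K.card ≤ 7 ∧ Cg E T (cv (z1, s1) ∪ cv (z2, s2)) K 4 3 := by
  have hn : D.card ≤ Fintype.card α := by
    have := card_le_univ (D.image (fun c => T c 0))
    rwa [card_image_of_injective _ (hT 0)] at this
  obtain ⟨a0, -⟩ : D.Nonempty := card_pos.1 (by omega)
  have : Nonempty ι := ⟨a0⟩
  choose sX hX hXu using latX hE
  choose sS hS hSu using latS hE
  choose sZ hZ hZu using latZ hE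
  have iXs : ∀ i y z s s', sX i y z s = sX i y z s' → s = s' := fun i y z s s' h =>
    (latS hE (i, sX i y z s, y) z).unique (hX i y z s) (h ▸ hX i y z s')
  have iXz : ∀ i y z z' s, sX i y z s = sX i y z' s → z = z' := fun i y z z' s h =>
    (latZ hE (i, sX i y z s, y) s).unique (hX i y z s) (h ▸ hX i y z' s)
  have iSx : ∀ i x x' y z, sS (i, x, y) z = sS (i, x', y) z → x = x' := fun i x x' y z h =>
    (latX hE i y z (sS (i, x, y) z)).unique (hS _ z) (h ▸ hS _ z)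
  have iZx : ∀ i x x' y s, sZ (i, x, y) s = sZ (i, x', y) s → x = x' := fun i x x' y s h =>
    (latX hE i y (sZ (i, x, y) s) s).unique (hZ _ s) (h ▸ hZ _ s)
  set I : Fin 5 → ι → ι → Finset α := fun j a b => (D \ {a, b}).image (fun c => T c j) with hI
  set inv : Fin 5 → α → ι := fun j => Function.invFun (fun c => T c j) with hinv
  have hI1 : ∀ j a b y, y ∈ I j a b → inv j y ∈ D ∧ a ≠ inv j y ∧ b ≠ inv j y ∧
      T (inv j y) j = y := by
    intro j a b y hy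
    obtain ⟨c, hc, rfl⟩ := mem_image.1 hy
    have : inv j (T c j) = c := Function.leftInverse_invFun (hT j) c
    rw [this]
    simp only [mem_sdiff, mem_insert, mem_singleton, not_or] at hc
    exact ⟨hc.1, fun h => hc.2.1 h.symm, fun h => hc.2.2 h.symm, rfl⟩
  obtain ⟨r, hr⟩ : ∃ r, D.card + r = Fintype.card α + 2 :=
    ⟨Fintype.card α + 2 - D.card, by omega⟩
  have hI2 : ∀ j a b, ∀ (h : ι → α), Function.Injective h →
      ct D (fun c => True ∧ h c ∉ I j a b) ≤ r := by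
    intro j a b h hh
    have h1 := card_bad (I j a b) D h (fun _ => True) (fun a _ b _ _ _ e => hh e)
    have h2 : D.card ≤ (I j a b).card + 2 := by
      rw [hI]; simp only; rw [card_image_of_injective _ (hT j)]
      have := le_card_sdiff {a, b} D
      have := card_le_two (a := a) (b := b)
      omega
    omega
  set φ4 : ι → ι → α := fun b c => sX (T b 0) (T b 2) z2 (T c 4) with hφ4
  set φ3 : α → ι → ι → α := fun s a c => sX (T a 0) (T a 2) (T c 3) s with hφ3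
  set φ1 : ι → ι → α := fun a a' => sS (T a' 0, T a 1, T a' 2) z1 with hφ1
  set φ2 : α → ι → ι → α := fun s b a' => sZ (T a' 0, T b 1, T a' 2) s with hφ2
  obtain ⟨a, ha, b, hb, c, hc', h1, h2, h3⟩ := three_dim D
    (fun a b c => a = b ∨ (True ∧ φ1 a (inv 1 (φ4 b c)) ∉ I 4 c c))
    (fun a b c => (True ∧ φ2 s2 b (inv 1 (φ3 s1 a c)) ∉ I 3 c c) ∨
      (True ∧ φ2 s1 b (inv 1 (φ3 s2 a c)) ∉ I 3 c c))
    (fun a b c => (True ∧ φ4 b c ∉ I 1 a b) ∨ (True ∧ φ3 s1 a c ∉ I 1 a b) ∨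
      (True ∧ φ3 s2 a c ∉ I 1 a b))
    (1 + r) (r + r) (r + (r + r))
    (fun b _ c _ => filter_or_le D _ _
      (ct_eq D b)
      (hI2 4 c c (fun a => φ1 a (inv 1 (φ4 b c))) fun a a' h => hT 1 (iSx _ _ _ _ _ h)))
    (fun a _ c _ => filter_or_le D _ _
      (hI2 3 c c (fun b => φ2 s2 b (inv 1 (φ3 s1 a c))) fun b b' h => hT 1 (iZx _ _ _ _ _ h))
      (hI2 3 c c (fun b => φ2 s1 b (inv 1 (φ3 s2 a c))) fun b b' h => hT 1 (iZx _ _ _ _ _ h)))
    (fun a _ b _ => filter_or_le D _ _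
      (hI2 1 a b (φ4 b) fun c c' h => hT 4 (iXs _ _ _ _ _ h))
      (filter_or_le D _ _ (hI2 1 a b (φ3 s1 a) fun c c' h => hT 3 (iXz _ _ _ _ _ h))
        (hI2 1 a b (φ3 s2 a) fun c c' h => hT 3 (iXz _ _ _ _ _ h))))
    (by omega)
  simp only [true_and, not_or, not_not] at h1 h2 h3
  obtain ⟨p0, p1⟩ := h1
  obtain ⟨q1, q2⟩ := h2
  obtain ⟨r1, r2, r3⟩ := h3
  obtain ⟨s, s', hss, hD', eU, t1, t2, t3⟩ : ∃ s s', s ≠ s' ∧
      (∀ a ∈ D, (T a 3 ≠ z1 ∧ T a 3 ≠ z2) ∧ T a 4 ≠ s ∧ T a 4 ≠ s') ∧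
      cv (z1, s1) ∪ cv (z2, s2) = cv (z1, s) ∪ cv (z2, s') ∧
      φ3 s a c ∈ I 1 a b ∧ φ3 s a c ≠ φ4 b c ∧ φ2 s' b (inv 1 (φ3 s a c)) ∈ I 3 c c := by
    by_cases h : φ3 s1 a c = φ4 b c
    · refine ⟨s2, s1, hs.symm, fun x hx => ⟨(hD x hx).1, (hD x hx).2.symm⟩, ?_, r3,
        fun h' => hs (iXs _ _ _ _ _ (h.trans h'.symm)), q2⟩
      ext x; simp only [mem_union, mem_cv]; tauto
    · exact ⟨s1, s2, hs, hD, rfl, r2, h, q1⟩
  obtain ⟨u1, u2, u3, u4⟩ := hI1 _ _ _ _ r1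
  obtain ⟨v1, v2, v3, v4⟩ := hI1 _ _ _ _ t1
  obtain ⟨w1, w2, -, w4⟩ := hI1 _ _ _ _ p1
  obtain ⟨x1, x2, -, x4⟩ := hI1 _ _ _ _ t3
  obtain ⟨b2, y1, y2, y3, z, z', y4, y5⟩ : ∃ b2 ∈ D, c ≠ b2 ∧
      inv 4 (φ1 a (inv 1 (φ4 b c))) ≠ b2 ∧ ∃ z z',
      ((z = T (inv 4 (φ1 a (inv 1 (φ4 b c)))) 3 ∧ z' = T b2 3) ∨
        (z = T b2 3 ∧ z' = T (inv 4 (φ1 a (inv 1 (φ4 b c)))) 3)) ∧
      z = φ2 s' b (inv 1 (φ3 s a c)) := by
    by_cases h : inv 4 (φ1 a (inv 1 (φ4 b c))) = inv 3 (φ2 s' b (inv 1 (φ3 s a c)))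
    · obtain ⟨b2, g1⟩ : (D \ {c, inv 4 (φ1 a (inv 1 (φ4 b c)))}).Nonempty := by
        have := le_card_sdiff {c, inv 4 (φ1 a (inv 1 (φ4 b c)))} D
        have := card_le_two (a := c) (b := inv 4 (φ1 a (inv 1 (φ4 b c))))
        exact card_pos.1 (by omega)
      simp only [mem_sdiff, mem_insert, mem_singleton, not_or] at g1
      exact ⟨b2, g1.1, fun h => g1.2.1 h.symm, fun h => g1.2.2 h.symm, _, _, Or.inl ⟨rfl, rfl⟩,
        by rw [h, x4]⟩
    · exact ⟨_, x1, x2, h, _, _, Or.inr ⟨rfl, rfl⟩, x4⟩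
  rw [eU]
  refine ⟨_, ?_, ?_, red_coreg hT hz hss hD' hc' w1 y1 p0 v2 u2 v3 u3
    (fun h => t2 (by rw [← v4, h, u4])) w2 y2 y3 y4
    (by rw [w4]; exact hS _ _) (by rw [u4]; exact hX _ _ _ _) (by rw [v4]; exact hX _ _ _ _)
    (by rw [y5]; exact hZ _ _)⟩
  · intro x hx
    simp only [mem_insert, mem_singleton] at hx
    rcases hx with rfl | rfl | rfl | rfl | rfl | rfl | rfl <;> assumption
  · exact (card_insert_le _ _).trans (Nat.succ_le_succ card_le_six)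

lemma Cf.redg (hE : Lat E) (hT : ∀ j, Function.Injective (fun a => T a j)) {U : Finset (Col α)}
    {K D : Finset ι} {i j : ℕ} (h : Cf E T U K i j) (hK : K ⊆ D) (w : α × α)
    (hw : Disjoint U (cv w)) (hD : Disjoint (U ∪ cv w) (CC T D))
    (hc : 6 * Fintype.card α + 13 + 7 * K.card < 7 * D.card) :
    ∃ K' ⊆ D, K'.card ≤ K.card + 7 ∧ Cg E T (U ∪ cv w) K' (i + 4) (j + 3) := by
  have hX : Disjoint (U ∪ CC T K) (cv w) := disjoint_union_left.2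
    ⟨hw, (hD.mono subset_union_right (CC_mono hK)).symm⟩
  obtain ⟨K', ⟨g1, g2⟩, g3⟩ := h.compg hT hX (fun K' => K' ⊆ D ∧ K'.card ≤ 7) (i' := 4) (j' := 3) (by
    intro v hv
    have h1 := disj_cv (hX.mono_left hv)
    have h2 : Disjoint (cv v ∪ cv w) (CC T (D \ K)) := by
      refine disjoint_union_left.2 ⟨Disjoint.mono_left hv (disjoint_union_left.2
        ⟨hD.mono subset_union_left (CC_mono sdiff_subset), disj_CC hT disjoint_sdiff⟩),
        hD.mono subset_union_right (CC_mono sdiff_subset)⟩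
    obtain ⟨K', k1, k2, k3⟩ := Cube.redg hE hT (D := D \ K) h1.1 h1.2 (by
      intro a ha
      have h3 : ∀ j x, ((j, x) : Col α) ∈ cv v ∪ cv w → T a j ≠ x := fun j x hx h =>
        disjoint_left.1 h2 hx (mem_CC.2 ⟨a, ha, h⟩)
      exact ⟨⟨h3 3 _ (by simp [mem_cv]), h3 3 _ (by simp [mem_cv])⟩,
        h3 4 _ (by simp [mem_cv]), h3 4 _ (by simp [mem_cv])⟩) (by
      rw [card_sdiff_of_subset hK]
      have := card_le_card hK
      omega)
    exact ⟨K', ⟨k1.trans sdiff_subset, k2⟩, disjoint_sdiff.mono_right k1,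
      hD.mono subset_union_left (CC_mono (k1.trans sdiff_subset)), k3⟩)
  exact ⟨K ∪ K', union_subset hK g1, (card_union_le _ _).trans (by omega), g3⟩

/-- an uncovered tuple and an uncovered block are replaced by one uncovered block -/
theorem step2g (hE : Lat E) (hT : ∀ j, Function.Injective (fun a => T a j)) {u : Fin 5 → α}
    {v : α × α} {D : Finset ι} (huv : Disjoint (col u) (cv v))
    (hD : Disjoint (col u ∪ cv v) (CC T D)) (hc : 6 * Fintype.card α + 76 < 7 * D.card) :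
    ∃ K ⊆ D, K.card ≤ 16 ∧ Cg E T (cv v ∪ col u) K 8 8 := by
  have hn : D.card ≤ Fintype.card α := by
    have := card_le_univ (D.image (fun c => T c 0))
    rwa [card_image_of_injective _ (hT 0)] at this
  obtain ⟨K1, a1, a2, a3⟩ := cover hE hT u (D := D) (by omega)
  obtain ⟨K2, b1, b2, b3⟩ := a3.red hE hT a1 (u 3, u 4) (disj_pv _ _)
    (by have := hD.mono_left subset_union_left; rwa [col_eq] at this) (by omega)
  have e : pc u ∪ cv (u 3, u 4) = col u := (col_eq u).symm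
  rw [e] at b3
  obtain ⟨K3, c1, c2, c3⟩ := b3.redg hE hT b1 v huv hD (by omega)
  rw [union_comm] at c3
  exact ⟨K3, c1, by omega, c3⟩

end Pool.Agent.Lib.MP_356f68_co.Cube
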