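import Mathlib
import Pool.Agent.Lib.MP_356f68_co.Hyp.Prep
import Pool.Agent.Lib.MP_356f68_co.Hyp.Vab

/-! From the five-partite diagonal slice to the whole hypercube. -/

set_option autoImplicit false
set_option linter.unusedSectionVars false

namespace Pool.Agent.Lib.MP_356f68_co.Hyp

open Finset Function Pool.Agent.Lib.MP_356f68_co.Cube

variable {κ α : Type} [Fintype κ] [DecidableEq κ] [Fintype α] [DecidableEq α]
  {E : (κ → α) → Prop} {a b : κ}

lemma cover_rest (hE : LK E) (hab : a ≠ b) (Rs : κ → Prop) [DecidablePred Rs] (ha : ¬ Rs a)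
    (hb : ¬ Rs b) (m : ℕ) (S B : Finset (κ × α)) (h1 : ∀ j, Rs j → sz S j = m)
    (h2 : Disjoint S B) (h3 : 2 * (B.card + Fintype.card κ * m) < Fintype.card α) :
    ∃ N, PK E N ∧ Disjoint N B ∧ (∀ x, Rs x.1 → (x ∈ N ↔ x ∈ S)) ∧ ∀ j, sz N j = m := by
  classical
  induction m generalizing S B with
  | zero =>
    refine ⟨∅, PK.empty, by simp, fun x hx => ?_, fun j => by simp [sz]⟩
    have := card_eq_zero.1 (h1 _ hx)
    simpa using fun h => filter_eq_empty_iff.1 this h rfl
  | succ m ih =>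
    set D := B.image Prod.snd
    have d1 : D.card ≤ B.card := card_image_le
    have d2 : ∀ j t, t ∉ D → (j, t) ∉ B := fun j t h h' => h (mem_image_of_mem Prod.snd h')
    obtain ⟨t0, -, a1⟩ := exists_mem_notMem_of_card_lt_card (s := D) (t := univ)
      (by rw [card_univ]; omega)
    have : ∀ j, ∃ t, (j, t) ∉ B ∧ (Rs j → (j, t) ∈ S) := fun j => by
      by_cases hj : Rs j
      · obtain ⟨t, ht⟩ : (univ.filter (fun t => (j, t) ∈ S)).Nonempty := by
          rw [← card_pos, ← sz_eq, h1 j hj]; omega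
        exact ⟨t, disjoint_left.1 h2 (mem_filter.1 ht).2, fun _ => (mem_filter.1 ht).2⟩
      · exact ⟨t0, d2 _ _ a1, fun h => absurd h hj⟩
    choose p p1 p2 using this
    obtain ⟨r, r1, r2, -⟩ := Win.avoid4 (sol_inj hE hab p) injective_id injective_id D D ∅ ∅
      (by rw [card_empty]; omega)
    obtain ⟨g, g1, g2⟩ : ∃ g, E g ∧ g = u2 a b p (r, sol hE b (update p a r)) :=
      ⟨_, sol_spec hE b _, rfl⟩
    have g3 : ∀ j, Rs j → (j, g j) ∈ S := fun j hj => by
      rw [g2, u2_o (a := a) (b := b) (j := j) (fun e => ha (e ▸ hj)) (fun e => hb (e ▸ hj))]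
      exact p2 j hj
    have g4 : Disjoint (cl g) B := disjoint_left.2 fun x hx hB => by
      have : (x.1, g x.1) ∈ B := by rwa [mem_cl.1 hx]
      rw [g2, u2] at this
      simp only [update_apply] at this
      split_ifs at this
      exacts [d2 _ _ r2 this, d2 _ _ r1 this, p1 _ this]
    obtain ⟨N, n1, n2, n3, n4⟩ := ih (S \ cl g) (B ∪ cl g) (fun j hj => by
        have e : univ.filter (fun t => (j, t) ∈ S \ cl g)
            = (univ.filter (fun t => (j, t) ∈ S)).erase (g j) := by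
          ext t; simp [mem_cl, and_comm, eq_comm]
        rw [sz_eq, e, card_erase_of_mem (by simpa using g3 j hj), ← sz_eq, h1 j hj]
        rfl) (disjoint_union_right.2 ⟨h2.mono_left sdiff_subset, sdiff_disjoint⟩) (by
        have := card_union_le B (cl g)
        rw [card_cl] at this
        rw [mul_add_one] at h3
        omega)
    rw [disjoint_union_right] at n2
    refine ⟨cl g ∪ N, (PK.single g1).union n1 n2.2.symm, disjoint_union_left.2 ⟨g4, n2.1⟩,
      fun x hx => ?_, fun j => by rw [sz_union n2.2.symm, sz_cl, n4, add_comm]⟩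
    rw [mem_union, n3 x hx, mem_sdiff]
    refine ⟨fun h => h.elim (fun e => ?_) fun e => e.1, fun h => ?_⟩
    · have := g3 _ hx
      rwa [mem_cl.1 e] at this
    · by_cases e : x ∈ cl g
      exacts [Or.inl e, Or.inr ⟨h, e⟩]

/-- the preimage of a vertex set of the slice -/
def lift (π : κ → Fin 5) (U : Finset (Col α)) : Finset (κ × α) :=
  univ.filter (fun x => (π x.1, x.2) ∈ U)

variable {π : κ → Fin 5} {σ : Fin 5 → κ}

lemma mem_lift {U : Finset (Col α)} {x : κ × α} : x ∈ lift π U ↔ (π x.1, x.2) ∈ U := by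
  simp [lift]

lemma card_lift (U : Finset (Col α)) : (lift π U).card ≤ Fintype.card κ * U.card := by
  refine (card_le_card (t := univ ×ˢ U.image Prod.snd) fun x hx => ?_).trans ?_
  · exact mem_product.2 ⟨mem_univ _, mem_image.2 ⟨_, mem_lift.1 hx, rfl⟩⟩
  · rw [card_product, card_univ]
    exact Nat.mul_le_mul_left _ card_image_le

lemma pm_lift {U : Finset (Col α)} (h : PM (fun g => E (g ∘ π)) U) : PK E (lift π U) := by
  obtain ⟨M, h1, h2, rfl⟩ := h
  have := PK.biUnion M (fun g => cl (g ∘ π)) (fun g hg => PK.single (h1 g hg))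
    fun g hg g' hg' hne => disjoint_cl.2 fun j => disjoint_col.1 (h2 hg hg' hne) (π j)
  convert this using 1
  ext x
  simp [mem_lift, mem_col, mem_cl]

lemma lat_slice (hE : LK E) (h1 : ∀ i, i ≠ 0 → π (σ i) = i) (h2 : ∀ j, π j ≠ 0 → σ (π j) = j) :
    Lat (fun g : Fin 5 → α => E (g ∘ π)) := by
  intro i hi g
  have : ∀ t, update g i t ∘ π = update (g ∘ π) (σ i) t := fun t => by
    funext j
    by_cases h : π j = i
    · rw [comp_apply, h, update_self, ← h2 j (h ▸ hi), h, update_self]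
    · rw [comp_apply, update_of_ne h, update_of_ne (fun e => h (by rw [e, h1 i hi])), comp_apply]
  simp only [this]
  exact hE _ _

/-- after deleting a small matchable set everything but one tuple of `R` can be matched -/
def CmpK (E : (κ → α) → Prop) (a b : κ) (p : κ → α) (R : Finset (κ × α)) : Prop :=
  ∀ Cl, PK E Cl → Disjoint Cl R → 1000 * (Fintype.card κ * Cl.card) ≤ Fintype.card α →
    ∃ u, lf a b u ⊆ R ∧ PK E (univ \ (Cl ∪ cl (u2 a b p u)))

theorem cmp_lift (hE : LK E) (h1 : ∀ i, i ≠ 0 → π (σ i) = i) (h2 : ∀ j, π j ≠ 0 → σ (π j) = j)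
    {p : Fin 5 → α} {R : Finset (Col α)} (hp : col p ⊆ R)
    (hR : 10 * (Fintype.card κ * R.card) ≤ Fintype.card α)
    (h : Cmp5 (fun g => E (g ∘ π)) p R) : CmpK E (σ 3) (σ 4) (p ∘ π) (lift π R) := by
  intro Cl c1 c2 c3
  have s3 := h1 3 (by decide)
  have s4 := h1 4 (by decide)
  have hab : σ 3 ≠ σ 4 := fun e => by rw [e, s4] at s3; exact absurd s3 (by decide)
  have k1 : 1 ≤ Fintype.card κ := Fintype.card_pos_iff.2 ⟨σ 0⟩
  have n1 : 1 ≤ Fintype.card α := Fintype.card_pos_iff.2 ⟨p 0⟩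
  have k2 : Cl.card ≤ Fintype.card κ * Cl.card := Nat.le_mul_of_pos_left _ k1
  have k3 : R.card ≤ Fintype.card κ * R.card := Nat.le_mul_of_pos_left _ k1
  obtain ⟨m, hm⟩ := c1.bal
  have m1 : m ≤ Cl.card := hm (σ 0) ▸ card_filter_le _ _
  obtain ⟨Br, b1, b2, b3⟩ := exists_subsuperset_card_eq (n := Cl.card)
    (s := (Cl.filter (fun x => π x.1 = 0)).image Prod.snd)
    (t := univ \ (R.filter (fun y => y.1 = 0)).image Prod.snd) (fun t ht => by
      obtain ⟨x, hx, rfl⟩ := mem_image.1 ht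
      refine mem_sdiff.2 ⟨mem_univ _, fun hy => ?_⟩
      obtain ⟨y, hy, e⟩ := mem_image.1 hy
      refine disjoint_left.1 c2 (mem_filter.1 hx).1 (mem_lift.2 ?_)
      rw [(mem_filter.1 hx).2, ← e, ← (mem_filter.1 hy).2]
      exact (mem_filter.1 hy).1) (card_image_le.trans (card_filter_le _ _)) (by
      have := (card_image_le (s := R.filter (fun y => y.1 = 0)) (f := Prod.snd)).trans
        (card_filter_le _ _)
      rw [card_univ_sdiff]
      omega)
  have b4 : ∀ t ∈ Br, ((0 : Fin 5), t) ∉ R := fun t ht hR =>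
    (mem_sdiff.1 (b2 ht)).2 (mem_image.2 ⟨_, mem_filter.2 ⟨hR, rfl⟩, rfl⟩)
  have b5 : ∀ x ∈ Cl, π x.1 = 0 → x.2 ∈ Br := fun x hx e =>
    b1 (mem_image_of_mem _ (mem_filter.2 ⟨hx, e⟩))
  obtain ⟨N, g1, g2, g3, g4⟩ := cover_rest hE hab (fun j => π j = 0) (by simp [s3]) (by simp [s4])
    (Cl.card - m) (univ.filter (fun x => π x.1 = 0 ∧ x.2 ∈ Br ∧ x ∉ Cl)) (Cl ∪ lift π R)
    (fun j hj => by
      rw [sz_eq, ← b3, ← hm j, sz_eq, ← card_sdiff_of_subset
        (fun t ht => b5 _ (mem_filter.1 ht).2 hj)]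
      congr 1
      ext t
      simp [hj]) (disjoint_left.2 fun x hx hx' => by
      obtain ⟨-, e1, e2, e3⟩ := mem_filter.1 hx
      exact (mem_union.1 hx').elim e3 fun e => b4 _ e2 (e1 ▸ mem_lift.1 e)) (by
      have := card_union_le Cl (lift π R)
      have := card_lift (π := π) R
      have := Nat.mul_le_mul_left (Fintype.card κ) (Nat.sub_le Cl.card m)
      omega)
  rw [disjoint_union_right] at g2
  set Q : Finset (Col α) :=
    univ.filter (fun y => if y.1 = 0 then y.2 ∈ Br else (σ y.1, y.2) ∈ Cl ∪ N) with hQ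
  have q1 : lift π Q = Cl ∪ N := by
    ext x
    simp only [mem_lift, hQ, mem_filter, mem_univ, true_and]
    split_ifs with e
    · rw [mem_union, g3 x e]
      simp only [mem_filter, mem_univ, true_and, e]
      have := b5 x
      tauto
    · rw [h2 _ e]
  have q2 : Bal Q Cl.card := fun i => by
    change sz Q i = _
    rw [sz_eq]
    by_cases e : i = 0
    · simp [hQ, e, b3]
    · simp only [hQ, mem_filter, mem_univ, true_and, if_neg e]
      rw [← sz_eq, sz_union g2.1.symm, hm, g4]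
      omega
  obtain ⟨v, v1, v2⟩ := h Q _ (disjoint_left.2 fun y hy hR => by
      have := (mem_filter.1 hy).2
      split_ifs at this with e
      · exact b4 _ this (e ▸ hR)
      · exact disjoint_left.1 (disjoint_union_left.2 ⟨c2, g2.2⟩) this
          (mem_lift.2 (by rwa [h1 _ e]))) q2 (by rw [q2.card]; omega)
  have q3 : lift π (pc p ∪ cv v) = cl (u2 (σ 3) (σ 4) (p ∘ π) v) := by
    ext ⟨j, t⟩
    rw [pc, ← col_mk, mem_lift, mem_col, mem_cl]
    refine Eq.congr_left ?_
    by_cases j3 : j = σ 3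
    · simp only [j3, s3, u2_a hab]; rfl
    by_cases j4 : j = σ 4
    · simp only [j4, s4, u2_b]; rfl
    · have e3 : π j ≠ 3 := fun e => j3 (by rw [← e, h2 j (by simp [e])])
      have e4 : π j ≠ 4 := fun e => j4 (by rw [← e, h2 j (by simp [e])])
      simp only [u2_o j3 j4, comp_apply]
      generalize π j = i at e3 e4
      fin_cases i <;> first | rfl | contradiction
  have q4 : cl (u2 (σ 3) (σ 4) (p ∘ π) v) ⊆ lift π R := q3 ▸ fun x hx => mem_lift.2
    (union_subset (subset_union_left.trans (col_eq p ▸ hp)) v1 (mem_lift.1 hx))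
  refine ⟨v, subset_union_right.trans (cl_u2 hab _ v ▸ q4), ?_⟩
  have q5 : lift π (univ \ (Q ∪ (pc p ∪ cv v)))
      = univ \ (Cl ∪ N ∪ cl (u2 (σ 3) (σ 4) (p ∘ π) v)) := by
    rw [← q1, ← q3]
    ext x
    simp only [mem_lift, mem_sdiff, mem_union, mem_univ]
  have q6 := g1.union (q5 ▸ pm_lift v2) (disjoint_sdiff.mono_left
    (subset_union_right.trans subset_union_left))
  convert q6 using 1
  ext x
  have e1 : x ∈ N → x ∉ Cl := fun h => disjoint_left.1 g2.1 h
  have e2 : x ∈ N → x ∉ cl (u2 (σ 3) (σ 4) (p ∘ π) v) := fun h =>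
    disjoint_left.1 (g2.2.mono_right q4) h
  simp only [mem_sdiff, mem_union, mem_univ, true_and]
  tauto

end Pool.Agent.Lib.MP_356f68_co.Hyp
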