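import Mathlib
import Pool.Agent.Lib.MP_356f68_co.Win.Main
import Pool.Agent.Lib.MP_356f68_co.Hyp.Close
import Pool.Agent.Lib.MP_356f68_co.Hyp.Lift

/-! Transversals in Latin hypercubes without eigenvalues in a window below `1`. -/

set_option autoImplicit false
set_option linter.unusedSectionVars false

namespace Pool.Agent.Lib.MP_356f68_co.Hyp

open Finset Function Pool.Agent.Lib.MP_356f68_co.Cube

theorem window4 (K : ℕ) : ∃ C : ℕ, ∀ (κ α : Type) [Fintype κ] [DecidableEq κ] [Fintype α]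
    [DecidableEq α] (X : ℕ), Fintype.card κ = K → 1 ≤ X →
    C * (Nat.log 2 (Fintype.card α) + 1) ^ 1215 * X ^ 480 ≤ Fintype.card α →
    ∀ (E : (κ → α) → Prop) [DecidablePred E], LK E → ∀ a b k e : κ, a ≠ b → a ≠ k → b ≠ k →
    a ≠ e → b ≠ e → k ≠ e → WnK E a b (1 / X) →
    (∀ (A : Type) [AddCommGroup A] (lam : κ → α → A), (∀ g, E g → ∑ j, lam j (g j) = 0) →
      ∑ j, ∑ t, lam j t = 0) → PK E univ := by
  obtain ⟨C, hC⟩ := prep5
  obtain ⟨J0, hJ⟩ : ∃ J : ℕ, 1800 ≤ J := ⟨_, le_rfl⟩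
  obtain ⟨p, hp⟩ : ∃ p : ℕ, p = 480 := ⟨_, rfl⟩
  obtain ⟨p', hp'⟩ : ∃ p : ℕ, p = 735 := ⟨_, rfl⟩
  obtain ⟨R, hR⟩ : ∃ R, R = 2 * K + 2 := ⟨_, rfl⟩
  rw [← hp, ← hp'] at hC
  rw [← hp, show 1215 = p' + p by omega]
  refine ⟨(C + 1) * (R * (4 ^ J0 * 60) * R) ^ p,
    fun κ α _ _ _ _ X hK hX hn E _ hE a b k e hab hak hbk hae hbe hke hW hS => ?_⟩
  set n := Fintype.card α with hn'
  obtain ⟨l, hl⟩ : ∃ l, l = Nat.log 2 n + 1 := ⟨_, rfl⟩
  have hl1 : 1 ≤ l := by omega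
  have hl2 : n < 2 ^ l := hl ▸ Nat.lt_pow_succ_log_self (by norm_num) n
  obtain ⟨m, hm⟩ : ∃ m, m = l * R := ⟨_, rfl⟩
  have hm1 : l ≤ m := hm ▸ Nat.le_mul_of_pos_right _ (by omega)
  have hm2 : R ≤ m := hm ▸ Nat.le_mul_of_pos_left _ hl1
  obtain ⟨T, hT⟩ : ∃ T, T = 4 ^ J0 * (60 * X * m) := ⟨_, rfl⟩
  obtain ⟨Y, hY⟩ : ∃ Y, Y = R * T := ⟨_, rfl⟩
  have t0 : (C + 1) * l ^ p' * Y ^ p ≤ n := by
    rw [← hl] at hn
    refine le_trans (le_of_eq ?_) hn
    rw [hY, hT, hm, show R * (4 ^ J0 * (60 * X * (l * R))) = R * (4 ^ J0 * 60) * R * X * l by ring,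
      mul_pow _ l, mul_pow _ X, pow_add]
    ring
  have t1 : J0 ≤ 4 ^ J0 := (Nat.lt_pow_self (by norm_num)).le
  have t2 : R * X ≤ X * m := by rw [mul_comm]; exact Nat.mul_le_mul_left _ hm2
  have t2' : R ≤ R * X := Nat.le_mul_of_pos_right _ hX
  have t3 : 60 * J0 ≤ T ∧ 60 * (X * m) ≤ T := by
    rw [hT, mul_assoc]
    exact ⟨by nlinarith, by nlinarith⟩
  have y1 : T ≤ Y := hY ▸ Nat.le_mul_of_pos_left _ (by omega)
  have t4 : Y ^ 8 ≤ n := by
    refine le_trans ?_ t0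
    calc Y ^ 8 ≤ Y ^ p := Nat.pow_le_pow_right (by omega) (by omega)
      _ ≤ _ := Nat.le_mul_of_pos_left _ (by positivity)
  have t5 : 1000 * Y ≤ Y ^ 2 := by rw [sq]; exact Nat.mul_le_mul_right _ (by omega)
  have t6 : 1000 * Y ^ 2 ≤ n := by
    refine le_trans ?_ t4
    rw [show Y ^ 8 = Y ^ 2 * Y ^ 4 * Y ^ 2 by ring]
    exact Nat.mul_le_mul_right _ (le_trans (by omega) (Nat.le_mul_of_pos_right _
      (Nat.pow_pos (by omega))))
  have : Nonempty α := Fintype.card_pos_iff.1 (by omega)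
  obtain ⟨A, iA, lam, h, hσ⟩ := labK hE hab hak hbk
  obtain ⟨β, hβ⟩ : ∃ β, β = n / (20 * T) := ⟨_, rfl⟩
  have hβ1 : 20 * (T * β) ≤ n := by rw [← mul_assoc, hβ]; exact Nat.mul_div_le _ _
  have hβ2 : 20 * β ≤ T * β := Nat.mul_le_mul_right _ (by omega)
  obtain ⟨Good, b1, b2, b3⟩ := exists_vab hE hab hak hbk lam h hσ R X J0 (60 * X * m) T β
    (by rw [hK, hR]) hJ hX hW (by omega) (by omega) (by rw [mul_assoc]; omega) hT (by
      have hX0 : (1 : ℝ) ≤ X := by exact_mod_cast hX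
      have g1 : (1 - 1 / (6 * X) : ℝ) ^ (6 * X) ≤ 1 / 2 := by
        have g2 := Real.one_sub_div_pow_le_exp_neg (n := 6 * X) (t := 1) (by push_cast; linarith)
        push_cast at g2
        refine g2.trans ?_
        rw [Real.exp_neg, one_div]
        exact inv_anti₀ (by norm_num) (by linarith [Real.add_one_le_exp 1])
      have g2 : (0 : ℝ) ≤ 1 - 1 / (6 * X) := by
        rw [sub_nonneg, div_le_one (by linarith)]; linarith
      have g3 : (n : ℝ) ≤ 2 ^ m := by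
        exact_mod_cast hl2.le.trans (Nat.pow_le_pow_right (by norm_num) hm1)
      have g4 : (2 : ℝ) ≤ 2 ^ m := le_self_pow₀ (by norm_num) (by omega)
      calc _ ≤ ((2 : ℝ) ^ m) ^ 2 * (1 / 2) ^ (m * 10) := by
            rw [show 60 * X * m = 6 * X * (m * 10) by ring, pow_mul]
            gcongr
        _ = 1 / (2 ^ m) ^ 8 := by rw [pow_mul, one_div_pow]; field_simp
        _ ≤ _ := one_div_le_one_div_of_le (by norm_num)
            (le_trans (by norm_num) (pow_le_pow_left₀ (by norm_num) g4 8))) (by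
      refine le_trans ?_ t4
      rw [show Y ^ 8 = (Y * Y ^ 2 * Y) ^ 2 by ring]
      gcongr <;> omega) (by
      have g1 : T * Y ≤ Y ^ 2 := by rw [sq]; exact Nat.mul_le_mul_right _ y1
      have : 10 * (T * (β + 2 + R * T)) = 10 * (T * β) + 20 * T + 10 * (T * Y) := by
        rw [hY]; ring
      omega)
  rw [← hY] at b3
  let π : κ → Fin 5 := fun j =>
    if j = a then 3 else if j = b then 4 else if j = k then 2 else if j = e then 1 else 0
  let σ : Fin 5 → κ := ![e, e, k, a, b]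
  have s1 : ∀ i, i ≠ 0 → π (σ i) = i := fun i hi => by
    fin_cases i
    · exact absurd rfl hi
    all_goals simp [π, σ, hab.symm, hak.symm, hbk.symm, hae.symm, hbe.symm, hke.symm]
  have s2 : ∀ j, π j ≠ 0 → σ (π j) = j := fun j hj => by
    simp only [π] at hj ⊢
    split_ifs at hj ⊢ with e1 e2 e3 e4
    exacts [e1.symm, e2.symm, e3.symm, e4.symm, absurd rfl hj]
  obtain ⟨q, S, r1, r2, r3⟩ := hC α Y l (by omega) hl (le_trans (by gcongr; omega) t0) _
    (lat_slice hE s1 s2)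
  have c0 := card_lift (π := π) S
  rw [hK] at c0
  have c1 : (2 * K + (2 * Y + 2)) * (lift π S).card ≤ 3 * (Y * (K * S.card)) :=
    (Nat.mul_le_mul (by omega) c0).trans (mul_assoc _ _ _).le
  have c2 : K * S.card ≤ Y * (K * S.card) := Nat.le_mul_of_pos_left _ (by omega)
  have c3 : T * (Y * (K * S.card)) ≤ Y ^ 2 * S.card := by
    calc _ = K * T * Y * S.card := by ring
      _ ≤ R * T * Y * S.card := by gcongr; omega
      _ = _ := by rw [← hY, sq]
  have c4 : 60 * K * (Y * (K * S.card)) ≤ T * (Y * (K * S.card)) :=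
    Nat.mul_le_mul_right _ (by omega)
  have c5 : Y * (K * S.card) ≤ T * (Y * (K * S.card)) := Nat.le_mul_of_pos_left _ (by omega)
  have c6 : cl (q ∘ π) ⊆ lift π S := fun x hx => mem_lift.2 (r2 (mem_col.2 (mem_cl.1 hx :)))
  obtain ⟨Cl, l1, l2, l3, l4⟩ := closer hE hab hak hbk lam h (K := 2 * K) (by rw [hK]) b3 b1 b2
    (q ∘ π) (lift π S) ((filter_subset _ _).trans c6) (by
      refine le_trans (show _ ≤ 4 * (Y * (K * S.card)) by omega) ?_
      rw [hβ, Nat.le_div_iff_mul_le (by omega)]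
      have : 4 * (Y * (K * S.card)) * (20 * T) = 80 * (T * (Y * (K * S.card))) := by ring
      omega) (by omega)
  obtain ⟨u, u1, u3⟩ := cmp_lift hE s1 s2 r2 (by rw [hK]; omega) r3 Cl l3 l2 (by
    have g1 : K * Cl.card ≤ K * (3 * (Y * (K * S.card))) := Nat.mul_le_mul_left _ (l1.trans c1)
    have g2 : 20 * (K * (3 * (Y * (K * S.card)))) = 60 * K * (Y * (K * S.card)) := by ring
    rw [hK]
    omega)
  change lf a b u ⊆ _ at u1
  change PK E (univ \ (Cl ∪ cl (u2 a b (q ∘ π) u))) at u3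
  have f2 : Disjoint Cl (cl (u2 a b (q ∘ π) u)) := l2.mono_right (by
    rw [cl_u2 hab]
    exact union_subset ((filter_subset _ _).trans c6) u1)
  have f5 : ∑ x : κ × α, lam x.1 x.2 = 0 := by rw [Fintype.sum_prod_type, hS A lam h]
  rw [← sum_sdiff (subset_univ (Cl ∪ cl (u2 a b (q ∘ π) u))), u3.wt h, sum_union f2, l3.wt h,
    zero_add, zero_add, cl, sum_image fun a _ b _ h => (Prod.ext_iff.1 h).1] at f5
  have f6 := u3.union (l4 u u1 f5) sdiff_disjoint
  rwa [sdiff_union_of_subset (subset_univ _)] at f6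

lemma size (C p q m : ℕ) (h : p < m) : ∃ n0 : ℕ, ∀ n : ℕ, n0 < n → ∃ X : ℕ, 1 ≤ X ∧
    C * (Nat.log 2 n + 1) ^ q * X ^ p ≤ n ∧ (1 / X : ℝ) ≤ (n : ℝ) ^ (-(1 / m : ℝ)) := by
  obtain ⟨n0, h0⟩ := polylog ((C * 2 ^ p) ^ m) (q * m)
  refine ⟨n0, fun n hn => ?_⟩
  have hn1 : (1 : ℝ) ≤ n := by exact_mod_cast (by omega : 1 ≤ n)
  have m0 : (0 : ℝ) < m := by exact_mod_cast (by omega : 0 < m)
  set r : ℝ := (n : ℝ) ^ (1 / m : ℝ) with hr
  have r1 : 1 ≤ r := Real.one_le_rpow hn1 (by positivity)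
  have r2 : r ^ m = n := by
    rw [hr, ← Real.rpow_natCast, ← Real.rpow_mul (by linarith), one_div_mul_cancel m0.ne',
      Real.rpow_one]
  have r3 : r ≤ ⌈r⌉₊ := Nat.le_ceil r
  have r4 : (⌈r⌉₊ : ℝ) ≤ 2 * r := by linarith [Nat.ceil_lt_add_one (show 0 ≤ r by linarith)]
  refine ⟨⌈r⌉₊, by exact_mod_cast r1.trans r3, ?_, ?_⟩
  · have g1 := h0 n hn.le
    rw [pow_mul, ← mul_pow] at g1
    have g2 : ((C * 2 ^ p * (Nat.log 2 n + 1) ^ q : ℕ) : ℝ) ≤ r := by
      refine le_of_pow_le_pow_left₀ (n := m) (by omega) (by positivity) ?_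
      rw [r2]
      exact_mod_cast g1
    have g4 : ((C * (Nat.log 2 n + 1) ^ q * ⌈r⌉₊ ^ p : ℕ) : ℝ) ≤ n := by
      calc _ ≤ (C * (Nat.log 2 n + 1) ^ q * (2 * r) ^ p : ℝ) := by push_cast; gcongr
        _ = ((C * 2 ^ p * (Nat.log 2 n + 1) ^ q : ℕ) : ℝ) * r ^ p := by push_cast; ring
        _ ≤ r ^ (p + 1) := pow_succ' r p ▸ mul_le_mul_of_nonneg_right g2 (by positivity)
        _ ≤ _ := r2 ▸ pow_le_pow_right₀ r1 h
    exact_mod_cast g4
  · rw [Real.rpow_neg (by linarith), ← hr, one_div]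
    exact inv_anti₀ (by linarith) r3

variable {κ α : Type} [Fintype κ] [DecidableEq κ] [Fintype α] [DecidableEq α]
  {E : (κ → α) → Prop} [DecidablePred E] {a b k : κ}

theorem window3 (hE : LK E) (hab : a ≠ b) (hak : a ≠ k) (hbk : b ≠ k)
    (h3 : ∀ j, j = a ∨ j = b ∨ j = k) (o : κ → α) {η : ℝ} (hW : WnK E a b η)
    (hS : ∀ (A : Type) [AddCommGroup A] (lam : κ → α → A), (∀ g, E g → ∑ j, lam j (g j) = 0) →
      ∑ j, ∑ t, lam j t = 0)
    (h : ∀ L : α → α → α, Win.Lq L → Win.Wn L η →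
      (∀ (A : Type) [AddCommGroup A] (φ ψ σ : α → A), (∀ r c, φ r + ψ c = σ (L r c)) →
        ∑ r, φ r + ∑ c, ψ c = ∑ s, σ s) →
      ∃ π : Equiv.Perm α, Injective (fun r => L r (π r))) :
    ∃ T : α → κ → α, (∀ i, E (T i)) ∧ ∀ j, Injective (fun i => T i j) := by
  set L := lay hE a b k o with hL
  have hq : Win.Lq L := lq_lay hE hab hak hbk o
  let ce : α → α → κ → α := fun r c => update (u2 a b o (r, c)) k (L r c)
  have e0 : ∀ r c, E (ce r c) := fun r c => sol_spec hE k _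
  have e1 : ∀ r c, ce r c a = r := fun r c => by simp only [ce, update_of_ne hak, u2_a hab]
  have e2 : ∀ r c, ce r c b = c := fun r c => by simp only [ce, update_of_ne hbk, u2_b]
  have e3 : ∀ r c, ce r c k = L r c := fun r c => update_self _ _ _
  have e4 : ∀ g, E g → L (g a) (g b) = g k := fun g hg => sol_eq hE (by
    convert hg using 1
    funext j
    rcases h3 j with rfl | rfl | rfl <;> simp [hab, hak, hbk])
  have e5 : ∀ g, E g → ce (g a) (g b) = g := fun g hg => funext fun j => by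
    rcases h3 j with rfl | rfl | rfl
    exacts [e1 _ _, e2 _ _, (e3 _ _).trans (e4 g hg)]
  have u3 : (univ : Finset κ) = {a, b, k} := by ext j; simpa using h3 j
  have c3 : Fintype.card κ = 3 := by
    rw [← card_univ, u3]; exact card_eq_three.2 ⟨a, b, k, hab, hak, hbk, rfl⟩
  have s3 : ∀ {A : Type} [AddCommGroup A] (F : κ → A), ∑ j, F j = F a + F b + F k := fun F => by
    rw [u3, sum_insert (by simp [hab, hak]), sum_pair hbk, add_assoc]
  obtain ⟨π, hπ⟩ := h L hq (fun f μ f0 f1 => hW (fun r c => f (r, c)) μ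
      (fun e => f0 (funext fun u => congrFun₂ e u.1 u.2)) fun r c => by
      have g1 := f1 (r, c)
      rw [← wn_sum hE f (r, c), c3, Nat.cast_one, one_mul, ← g1, ← Fintype.sum_prod_type']
      refine sum_nbij' (fun w => (w.2.2 a, w.2.1 b)) (fun v => (k, ce r v.2, ce v.1 c))
        (fun _ _ => mem_univ _) (fun v _ => mem_filter.2 ⟨mem_Wa.2 ⟨⟨hak.symm, hbk.symm⟩,
          e0 _ _, e0 _ _⟩, Prod.ext (e1 _ _) (e2 _ _)⟩) (fun w hw => ?_)
        (fun v _ => Prod.ext (e1 _ _) (e2 _ _)) fun w hw => ?_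
      all_goals
        obtain ⟨j, g, g'⟩ := w
        obtain ⟨g2, g3⟩ := mem_filter.1 hw
        obtain ⟨⟨g4, g5⟩, g6, g7⟩ := mem_Wa.1 g2
        obtain rfl : j = k := ((h3 j).resolve_left g4).resolve_left g5
        obtain ⟨rfl, rfl⟩ := Prod.ext_iff.1 g3
      · simp only [sr, e5 g g6, e5 g' g7]
      obtain ⟨-, g8, g9⟩ := mem_Wa.1 (rv_spec hE g2).1
      have g10 : Win.Mv L (g' a) (g b) (g a, g' b) (sr a b (rv hE a b (j, g, g'))) := by
        have f1 := e4 _ g8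
        have f2 := e4 _ g9
        simp only [rv, fx, update_of_ne hab, update_of_ne hab.symm, update_of_ne hak,
          update_of_ne hbk, update_of_ne hak.symm, update_of_ne hbk.symm, update_self] at f1 f2
        simp only [Win.Mv, sr, rv, fx, update_self, f1, f2, e4 g g6, e4 g' g7, and_self]
      exact ((sum_eq_single _ (fun v _ hv => if_neg fun e => hv
        ((Win.mv_one hq _ _ _).unique e g10)) (by simp)).trans (if_pos g10)).symm) (fun A _ φ ψ σ hs => by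
      have := hS A (fun j t => if j = a then φ t else if j = b then ψ t else -σ t) fun g hg => by
        simp [s3, hab.symm, hak.symm, hbk.symm, hs, e4 g hg]
      simpa [s3, hab.symm, hak.symm, hbk.symm, add_neg_eq_zero] using this)
  refine ⟨fun i => ce i (π i), fun i => e0 _ _, fun j => ?_⟩
  rcases h3 j with rfl | rfl | rfl
  · simp only [e1]; exact injective_id
  · simp only [e2]; exact π.injective
  · simp only [e3]; exact hπ

end Pool.Agent.Lib.MP_356f68_co.Hyp
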